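import Pool.Agent.U17.TS.Form

/-!
# Two scales, uniformly in a parameter
-/

set_option autoImplicit false

namespace Pool.Agent.U17.TS

open Finset Filter Topology Pool.Agent.N226.SX

section

variable {ι : Type} [Nonempty ι] {H : ℕ → ι → ℝ} {B κ : ℝ}

/-- from sparse lengths to all lengths, uniformly -/
theorem unif_sparse (hB : ∀ᶠ n : ℕ in atTop, ∀ i, |H n i| ≤ B)
    (hm : ∀ δ : ℝ, δ < κ → ∃ K : ℝ, ∀ᶠ n : ℕ in atTop, ∀ i, |H (n + 1) i - H n i| ≤
      K * (n : ℝ) ^ (-δ)) {c : ℕ} (hc : 1 ≤ c) {e M M' : ℝ} (he0 : 0 ≤ e) (he1 : e ≤ 1)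
    (hM'0 : 0 < M') (hM' : M' ≤ M) (hM'e : M' + e < κ)
    (v : ℕ → ℕ) (hv : Tendsto v atTop atTop)
    (hgap : ∀ᶠ j : ℕ in atTop, (v (j + 1) : ℝ) ≤ v j + (v j : ℝ) ^ e)
    (hval : ∃ C : ℝ, ∀ᶠ j : ℕ in atTop, ∀ i, |H (c * v j) i - H (v j) i| ≤
      C * (v j : ℝ) ^ (-M)) :
    ∃ C : ℝ, 0 ≤ C ∧ ∀ᶠ n : ℕ in atTop, ∀ i, |H (c * n) i - H n i| ≤ C * (n : ℝ) ^ (-M') := by
  set δ := M' + e with hδ
  obtain ⟨K, hK⟩ := hm δ hM'e
  obtain ⟨N, hN⟩ := eventually_atTop.1 (hK.and (hB.and (eventually_ge_atTop 1)))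
  set d : ℕ → ℝ := fun n => ⨆ i, |H (c * n) i - H n i| with hd
  have hδ0 : 0 ≤ δ := by rw [hδ]; linarith
  have hbd : ∀ n, N ≤ n → BddAbove (Set.range fun i => |H (c * n) i - H n i|) := by
    intro n hn
    refine ⟨2 * B, ?_⟩
    rintro _ ⟨i, rfl⟩
    have h1 := (hN n hn).2.1 i
    have h2 := (hN (c * n) (hn.trans (Nat.le_mul_of_pos_left _ hc))).2.1 i
    calc |H (c * n) i - H n i| ≤ |H (c * n) i| + |H n i| := abs_sub _ _
      _ ≤ 2 * B := by linarith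
  have hle : ∀ n, N ≤ n → ∀ i, |H (c * n) i - H n i| ≤ d n := fun n hn i =>
    le_ciSup (hbd n hn) i
  have hd0 : ∀ n, N ≤ n → 0 ≤ d n := fun n hn =>
    (abs_nonneg _).trans (hle n hn (Classical.arbitrary ι))
  -- the first differences of `H (c n)`
  have hstep : ∀ n, N ≤ n → ∀ i, ∀ k : ℕ, |H (c * n + k) i - H (c * n) i| ≤
      k * (|K| * (n : ℝ) ^ (-δ)) := by
    intro n hn i k
    induction k with
    | zero => simp
    | succ k ih =>
      have hn1 : 1 ≤ n := (hN n hn).2.2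
      have hnp : (0 : ℝ) < n := by exact_mod_cast hn1
      have h1 : n ≤ c * n + k := (Nat.le_mul_of_pos_left _ hc).trans (Nat.le_add_right _ _)
      have h2 := (hN (c * n + k) (hn.trans h1)).1 i
      have h3 : ((c * n + k : ℕ) : ℝ) ^ (-δ) ≤ (n : ℝ) ^ (-δ) :=
        Real.rpow_le_rpow_of_nonpos hnp (by exact_mod_cast h1) (by linarith)
      have h4 : |H (c * n + k + 1) i - H (c * n + k) i| ≤ |K| * (n : ℝ) ^ (-δ) :=
        h2.trans ((mul_le_mul_of_nonneg_right (le_abs_self K) (by positivity)).trans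
          (mul_le_mul_of_nonneg_left h3 (abs_nonneg K)))
      have h5 := abs_sub_le (H (c * n + (k + 1)) i) (H (c * n + k) i) (H (c * n) i)
      rw [← add_assoc] at h5 ⊢
      push_cast
      linarith
  have hdiff : ∀ n, N ≤ n → |d (n + 1) - d n| ≤ (c + 1) * |K| * (n : ℝ) ^ (-δ) := by
    intro n hn
    have hn1 : N ≤ n + 1 := by omega
    have hone : ∀ i, |(H (c * (n + 1)) i - H (n + 1) i) - (H (c * n) i - H n i)| ≤
        (c + 1) * |K| * (n : ℝ) ^ (-δ) := by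
      intro i
      have h1 := hstep n hn i c
      have h2 := (hN n hn).1 i
      have h3 : |H (n + 1) i - H n i| ≤ |K| * (n : ℝ) ^ (-δ) :=
        h2.trans (mul_le_mul_of_nonneg_right (le_abs_self K) (by positivity))
      have e1 : c * (n + 1) = c * n + c := by ring
      rw [e1]
      calc |(H (c * n + c) i - H (n + 1) i) - (H (c * n) i - H n i)|
          = |(H (c * n + c) i - H (c * n) i) - (H (n + 1) i - H n i)| := by congr 1; ring
        _ ≤ |H (c * n + c) i - H (c * n) i| + |H (n + 1) i - H n i| := abs_sub _ _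
        _ ≤ _ := by linarith
    rw [abs_le]
    constructor
    · have : d n ≤ d (n + 1) + (c + 1) * |K| * (n : ℝ) ^ (-δ) := by
        refine ciSup_le fun i => ?_
        have h1 := hle (n + 1) hn1 i
        have h2 := hone i
        rw [abs_sub_comm] at h2
        have h3 := abs_add_le ((H (c * n) i - H n i) - (H (c * (n + 1)) i - H (n + 1) i))
          (H (c * (n + 1)) i - H (n + 1) i)
        rw [sub_add_cancel] at h3
        linarith
      linarith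
    · have : d (n + 1) ≤ d n + (c + 1) * |K| * (n : ℝ) ^ (-δ) := by
        refine ciSup_le fun i => ?_
        have h1 := hle n hn i
        have h2 := hone i
        have h3 := abs_add_le ((H (c * (n + 1)) i - H (n + 1) i) - (H (c * n) i - H n i))
          (H (c * n) i - H n i)
        rw [sub_add_cancel] at h3
        linarith
      linarith
  have hbd1 : Bd d 1 δ := by
    refine ⟨(c + 1) * |K|, ?_⟩
    filter_upwards [eventually_ge_atTop N] with n hn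
    rw [D_succ, D_zero, D_zero, abs_sub_comm]
    exact hdiff n hn
  have hval' : ∃ C : ℝ, ∀ᶠ j in atTop, |d (v j)| ≤ C * (v j : ℝ) ^ (-M) := by
    obtain ⟨C, hC⟩ := hval
    refine ⟨C, ?_⟩
    filter_upwards [hC, hv.eventually_ge_atTop N] with j h1 h2
    rw [abs_of_nonneg (hd0 _ h2)]
    exact ciSup_le h1
  have h0 := Bd.of_sparse (by linarith : 0 ≤ M) hδ0 he0 he1 v hv hgap hval' hbd1
  have hmin : min M (δ - e) = M' := by
    rw [hδ, add_sub_cancel_right]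
    exact min_eq_right hM'
  rw [hmin] at h0
  obtain ⟨C, hC⟩ := h0
  refine ⟨|C|, abs_nonneg _, ?_⟩
  filter_upwards [hC, eventually_ge_atTop N] with n h1 h2 i
  rw [D_zero, abs_of_nonneg (hd0 _ h2)] at h1
  exact (hle n h2 i).trans (h1.trans (mul_le_mul_of_nonneg_right (le_abs_self C) (by positivity)))

/-- two scales, uniformly in the parameter -/
theorem unif_two (_hκ : 0 < κ) (hB : ∀ᶠ n : ℕ in atTop, ∀ i, |H n i| ≤ B)
    (hm : ∀ δ : ℝ, δ < κ → ∃ K : ℝ, ∀ᶠ n : ℕ in atTop, ∀ i, |H (n + 1) i - H n i| ≤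
      K * (n : ℝ) ^ (-δ)) {a b : ℕ} (ha : 2 ≤ a) (hb : 2 ≤ b) (hab : Indep a b)
    {e M M' : ℝ} (he0 : 0 ≤ e) (he1 : e ≤ 1) (hM'0 : 0 < M') (hM' : M' ≤ M) (hM'e : M' + e < κ)
    (v : ℕ → ℕ) (hv : Tendsto v atTop atTop)
    (hvgap : ∀ᶠ j : ℕ in atTop, (v (j + 1) : ℝ) ≤ v j + (v j : ℝ) ^ e)
    (w : ℕ → ℕ) (hw : Tendsto w atTop atTop)
    (hwgap : ∀ᶠ j : ℕ in atTop, (w (j + 1) : ℝ) ≤ w j + (w j : ℝ) ^ e)
    (hva : ∃ C : ℝ, ∀ᶠ j : ℕ in atTop, ∀ i, |H (a * v j) i - H (v j) i| ≤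
      C * (v j : ℝ) ^ (-M))
    (hwb : ∃ C : ℝ, ∀ᶠ j : ℕ in atTop, ∀ i, |H (b * w j) i - H (w j) i| ≤
      C * (w j : ℝ) ^ (-M)) :
    ∃ (ℓ : ι → ℝ) (C : ℝ), ∀ᶠ n : ℕ in atTop, ∀ i, |H n i - ℓ i| ≤ C * (n : ℝ) ^ (-M') := by
  obtain ⟨C2, hC2, h2⟩ := unif_sparse hB hm (by omega : 1 ≤ a) he0 he1 hM'0 hM' hM'e v hv hvgap hva
  obtain ⟨C3, hC3, h3⟩ := unif_sparse hB hm (by omega : 1 ≤ b) he0 he1 hM'0 hM' hM'e w hw hwgap hwb
  obtain ⟨C1, h1⟩ := hm (κ / 2) (by linarith)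
  obtain ⟨N, hN⟩ := eventually_atTop.1 (h1.and (h2.and h3))
  have hNN : ∀ n, max N 1 ≤ n → N ≤ n := fun n hn => (le_max_left _ _).trans hn
  have hex : ∀ i, ∃ ℓ : ℝ, ∀ n, max N 1 ≤ n → |H n i - ℓ| ≤
      C2 / (1 - (a : ℝ) ^ (-M')) * (n : ℝ) ^ (-M') := by
    intro i
    exact two_scales_unif ha hb hab (h := fun n => H n i) (C1 := |C1|) (C2 := C2) (C3 := C3)
      (le_max_right N 1) (by linarith : 0 < κ / 2) hM'0 (abs_nonneg _) hC2
      (fun n hn => ((hN n (hNN n hn)).1 i).trans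
        (mul_le_mul_of_nonneg_right (le_abs_self _) (by positivity)))
      (fun n hn => (hN n (hNN n hn)).2.1 i) (fun n hn => (hN n (hNN n hn)).2.2 i)
  choose ℓ hℓ using hex
  exact ⟨ℓ, _, (eventually_ge_atTop (max N 1)).mono fun n hn i => hℓ i n hn⟩

end

end Pool.Agent.U17.TS
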