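import Pool.Agent.U17.TS.Dbl

/-!
# Counting sequences: the ratio `c (2 n) / c n ^ 2`
-/

set_option autoImplicit false

namespace Pool.Agent.U17.TS

open Finset Filter Topology Pool.Agent.N226.SX

/-- what we use of a counting sequence -/
structure Cnt (κ : ℝ) (c : ℕ → ℝ) (μ : ℝ) : Prop where
  mu_pos : 0 < μ
  pos : ∀ n, 0 < c n
  small : Tendsto (fun n : ℕ => Real.log (c n / μ ^ n) / n) atTop (𝓝 0)
  reg : ∀ ρ : ℕ, Reg κ (fun k => Real.log (c (2 * k + ρ) / μ ^ (2 * k + ρ)))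

/-- the ratio -/
noncomputable def Rt (c : ℕ → ℝ) (n : ℕ) : ℝ := c (2 * n) / c n ^ 2

/-- the comparison function -/
noncomputable def gA (s A : ℝ) (n : ℕ) : ℝ := s * Real.log n + Real.log A

section

variable {κ : ℝ} {c : ℕ → ℝ} {μ : ℝ} (H : Cnt κ c μ)

include H

theorem Rt_pos (n : ℕ) : 0 < Rt c n := div_pos (H.pos _) (pow_pos (H.pos _) 2)

theorem log_Rt (n : ℕ) : Real.log (Rt c n) =
    Real.log (c (2 * n) / μ ^ (2 * n)) - 2 * Real.log (c n / μ ^ n) := by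
  have h1 := H.pos n
  have h2 := H.pos (2 * n)
  have hμ := H.mu_pos
  unfold Rt
  rw [Real.log_div h2.ne' (by positivity), Real.log_div h2.ne' (by positivity),
    Real.log_div h1.ne' (by positivity), Real.log_pow, Real.log_pow, Real.log_pow]
  push_cast
  ring

theorem reg_Rt (ρ : ℕ) : Reg κ (fun k => Real.log (Rt c (2 * k + ρ))) := by
  have h := reg_dbl (F := fun n => Real.log (c n / μ ^ n)) H.reg ρ
  refine fun a ha0 ha r hr => ?_
  obtain ⟨C, hC⟩ := h a ha0 ha r hr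
  refine ⟨C, hC.mono fun n hn => ?_⟩
  refine le_trans (le_of_eq ?_) hn
  congr 1
  exact D_congr _ _ _ _ fun i _ => log_Rt H _

end

theorem gA_dbl {s A B : ℝ} (hA : 0 < A) (hB : 0 < B) (hAB : A * B = 2 ^ s) {n : ℕ} (hn : 1 ≤ n) :
    gA s A (2 * n) - 2 * gA s A n = -s * Real.log n + Real.log B := by
  have h1 : Real.log A + Real.log B = s * Real.log 2 := by
    rw [← Real.log_mul hA.ne' hB.ne', hAB, Real.log_rpow (by norm_num)]
  have hnp : (0 : ℝ) < n := by exact_mod_cast hn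
  unfold gA
  push_cast
  rw [Real.log_mul (by norm_num) hnp.ne']
  linarith

theorem gA_reg (κ : ℝ) (hκ : κ ≤ 1) (s A : ℝ) (ρ : ℕ) :
    Reg κ (fun k => gA s A (2 * k + ρ)) := by
  have h1 := (reg_log2 κ hκ s ρ).sub (reg_const κ (-Real.log A))
  unfold gA
  simpa using h1

theorem gA_small (s A : ℝ) : Tendsto (fun n : ℕ => gA s A n / n) atTop (𝓝 0) := by
  have h1 : Tendsto (fun x : ℝ => Real.log x ^ 1 / (1 * x + 0)) atTop (𝓝 0) :=
    Real.tendsto_pow_log_div_mul_add_atTop 1 0 1 one_ne_zero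
  have h2 := (h1.comp (tendsto_natCast_atTop_atTop (R := ℝ))).const_mul s
  have h3 : Tendsto (fun n : ℕ => Real.log A / (n : ℝ)) atTop (𝓝 0) :=
    tendsto_const_div_atTop_nhds_zero_nat _
  have h4 := h2.add h3
  rw [mul_zero, zero_add] at h4
  refine h4.congr fun n => ?_
  unfold gA
  simp only [Function.comp_apply, pow_one, one_mul, add_zero]
  ring

/-- convergence to a positive limit in terms of logarithms -/
theorem tendsto_log_iff {ι : Type} {F : Filter ι} {x : ι → ℝ} {y : ℝ} (hy : 0 < y)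
    (hx : ∀ᶠ j in F, 0 < x j) :
    Tendsto x F (𝓝 y) ↔ Tendsto (fun j => Real.log (x j) - Real.log y) F (𝓝 0) := by
  constructor
  · intro h
    have h1 := (Real.continuousAt_log hy.ne').tendsto.comp h
    have h2 := h1.sub_const (Real.log y)
    rwa [sub_self] at h2
  · intro h
    have h1 := (Real.continuous_exp.tendsto 0).comp h
    rw [Real.exp_zero] at h1
    have h2 := h1.const_mul y
    rw [mul_one] at h2
    refine h2.congr' ?_
    filter_upwards [hx] with j hj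
    simp only [Function.comp_apply]
    rw [Real.exp_sub, Real.exp_log hj, Real.exp_log hy]
    field_simp

section

variable {κ : ℝ} {c : ℕ → ℝ} {μ : ℝ} (H : Cnt κ c μ)

include H

/-- the normalised sequence -/
theorem norm_log {s A : ℝ} {n : ℕ} (hn : 1 ≤ n) :
    Real.log (c n / (μ ^ n * (n : ℝ) ^ s)) - Real.log A =
      Real.log (c n / μ ^ n) - gA s A n := by
  have hnp : (0 : ℝ) < n := by exact_mod_cast hn
  have h1 := H.pos n
  have hμ := H.mu_pos
  rw [← div_div, Real.log_div (by positivity) (by positivity), Real.log_rpow hnp]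
  unfold gA
  ring

theorem norm_pos {s : ℝ} {n : ℕ} (hn : 1 ≤ n) : 0 < c n / (μ ^ n * (n : ℝ) ^ s) := by
  have hnp : (0 : ℝ) < n := by exact_mod_cast hn
  have h1 := H.pos n
  have hμ := H.mu_pos
  positivity

theorem ratio_log {s A B : ℝ} (hA : 0 < A) (hB : 0 < B) (hAB : A * B = 2 ^ s) {n : ℕ}
    (hn : 1 ≤ n) :
    Real.log (Rt c n * (n : ℝ) ^ s) - Real.log B =
      (Real.log (c (2 * n) / μ ^ (2 * n)) - gA s A (2 * n)) -
        2 * (Real.log (c n / μ ^ n) - gA s A n) := by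
  have hnp : (0 : ℝ) < n := by exact_mod_cast hn
  rw [Real.log_mul (Rt_pos H n).ne' (by positivity), Real.log_rpow hnp, log_Rt H]
  have := gA_dbl hA hB hAB hn
  linarith

theorem F_reg (hκ : κ ≤ 1) (s A : ℝ) (ρ : ℕ) :
    Reg κ (fun k => (fun n => Real.log (c n / μ ^ n) - gA s A n) (2 * k + ρ)) :=
  (H.reg ρ).sub (gA_reg κ hκ s A ρ)

theorem F_small (s A : ℝ) :
    Tendsto (fun n : ℕ => (Real.log (c n / μ ^ n) - gA s A n) / n) atTop (𝓝 0) := by
  have h := H.small.sub (gA_small s A)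
  rw [sub_zero] at h
  refine h.congr fun n => ?_
  ring

/-- the asymptotic form `c n ~ A μ ^ n n ^ s` in terms of the ratio along sparse lengths -/
theorem form_lim_iff (hκ : κ ≤ 1) {s A B : ℝ} (hA : 0 < A) (hB : 0 < B)
    (hAB : A * B = 2 ^ s) (α : ℝ) (hα0 : 0 ≤ α) (hα : α < κ)
    (v : ℕ → ℕ) (hv : Tendsto v atTop atTop)
    (hvgap : ∀ᶠ j : ℕ in atTop, (v (j + 1) : ℝ) ≤ v j + (v j : ℝ) ^ α)
    (w : ℕ → ℕ) (hw : Tendsto w atTop atTop)
    (hwgap : ∀ᶠ j : ℕ in atTop, (w (j + 1) : ℝ) ≤ w j + (w j : ℝ) ^ α) :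
    Tendsto (fun n : ℕ => c n / (μ ^ n * (n : ℝ) ^ s)) atTop (𝓝 A) ↔
    (Tendsto (fun j => Rt c (2 * v j) * ((2 * v j : ℕ) : ℝ) ^ s) atTop (𝓝 B) ∧
      Tendsto (fun j => Rt c (2 * w j + 1) * ((2 * w j + 1 : ℕ) : ℝ) ^ s) atTop (𝓝 B)) := by
  rw [tendsto_log_iff hA ((eventually_ge_atTop 1).mono fun n hn => norm_pos H hn)]
  have hRpos : ∀ n : ℕ, 1 ≤ n → 0 < Rt c n * (n : ℝ) ^ s := fun n hn => by
    have := Rt_pos H n
    have hnp : (0 : ℝ) < n := by exact_mod_cast hn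
    positivity
  rw [tendsto_log_iff hB ((hv.eventually_ge_atTop 1).mono fun j hj => hRpos _ (by omega)),
    tendsto_log_iff hB (Eventually.of_forall fun j => hRpos _ (by omega))]
  have e1 : (fun n : ℕ => Real.log (c n / (μ ^ n * (n : ℝ) ^ s)) - Real.log A) =ᶠ[atTop]
      fun n => Real.log (c n / μ ^ n) - gA s A n :=
    (eventually_ge_atTop 1).mono fun n hn => norm_log H hn
  have e2 : (fun j => Real.log (Rt c (2 * v j) * ((2 * v j : ℕ) : ℝ) ^ s) - Real.log B)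
      =ᶠ[atTop] fun j => (fun n => Real.log (c n / μ ^ n) - gA s A n) (2 * (2 * v j)) -
        2 * (fun n => Real.log (c n / μ ^ n) - gA s A n) (2 * v j) :=
    (hv.eventually_ge_atTop 1).mono fun j hj => ratio_log H hA hB hAB (by omega)
  have e3 : (fun j => Real.log (Rt c (2 * w j + 1) * ((2 * w j + 1 : ℕ) : ℝ) ^ s) - Real.log B)
      =ᶠ[atTop] fun j => (fun n => Real.log (c n / μ ^ n) - gA s A n) (2 * (2 * w j + 1)) -
        2 * (fun n => Real.log (c n / μ ^ n) - gA s A n) (2 * w j + 1) :=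
    Eventually.of_forall fun j => ratio_log H hA hB hAB (by omega)
  rw [tendsto_congr' e1, tendsto_congr' e2, tendsto_congr' e3]
  constructor
  · intro h
    have h1 : Tendsto (fun j => 2 * v j) atTop atTop :=
      tendsto_atTop_mono (fun j => (by omega : v j ≤ 2 * v j)) hv
    have h2 : Tendsto (fun j => 2 * (2 * v j)) atTop atTop :=
      tendsto_atTop_mono (fun j => (by omega : v j ≤ 2 * (2 * v j))) hv
    have h3 : Tendsto (fun j => 2 * w j + 1) atTop atTop :=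
      tendsto_atTop_mono (fun j => (by omega : w j ≤ 2 * w j + 1)) hw
    have h4 : Tendsto (fun j => 2 * (2 * w j + 1)) atTop atTop :=
      tendsto_atTop_mono (fun j => (by omega : w j ≤ 2 * (2 * w j + 1))) hw
    constructor
    · have := (h.comp h2).sub ((h.comp h1).const_mul 2)
      simpa using this
    · have := (h.comp h4).sub ((h.comp h3).const_mul 2)
      simpa using this
  · rintro ⟨h1, h2⟩
    exact dbl_little (F_reg H hκ s A) hκ (F_small H s A) α hα0 hα v hv hvgap w hw hwgap h1 h2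

/-- the general expansion in terms of the ratio along sparse lengths -/
theorem exp_iff (hκ0 : 0 < κ) (hκ : κ ≤ 1) {g : ℕ → ℝ}
    (hg : ∀ ρ : ℕ, Reg κ (fun k => g (2 * k + ρ)))
    (hgs : Tendsto (fun n : ℕ => g n / n) atTop (𝓝 0))
    {M : ℝ} (hM : 0 ≤ M) (α : ℝ) (hα0 : 0 ≤ α) (hα : α < κ)
    (v : ℕ → ℕ) (hv : Tendsto v atTop atTop)
    (hvgap : ∀ᶠ j : ℕ in atTop, (v (j + 1) : ℝ) ≤ v j + (v j : ℝ) ^ α)
    (w : ℕ → ℕ) (hw : Tendsto w atTop atTop)
    (hwgap : ∀ᶠ j : ℕ in atTop, (w (j + 1) : ℝ) ≤ w j + (w j : ℝ) ^ α) :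
    ((∃ C : ℝ, ∀ᶠ j : ℕ in atTop,
        |Real.log (Rt c (2 * v j)) - (g (2 * (2 * v j)) - 2 * g (2 * v j))| ≤
          C * (v j : ℝ) ^ (-M)) ∧
      ∃ C : ℝ, ∀ᶠ j : ℕ in atTop,
        |Real.log (Rt c (2 * w j + 1)) - (g (2 * (2 * w j + 1)) - 2 * g (2 * w j + 1))| ≤
          C * (w j : ℝ) ^ (-M)) ↔
    ∀ (s : ℕ) (x : ℝ), 0 ≤ x → x < κ → ∃ C : ℝ, ∀ᶠ n : ℕ in atTop,
      |D2 s (fun n => Real.log (c n / μ ^ n) - g n) n| ≤ C * (n : ℝ) ^ (-(M + x * s)) := by
  have e : ∀ n : ℕ, Real.log (Rt c n) - (g (2 * n) - 2 * g n) =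
      (fun n => Real.log (c n / μ ^ n) - g n) (2 * n) -
        2 * (fun n => Real.log (c n / μ ^ n) - g n) n := by
    intro n
    rw [log_Rt H]
    ring
  simp only [e]
  constructor
  · rintro ⟨h1, h2⟩
    refine dbl_O (F := fun n => Real.log (c n / μ ^ n) - g n)
      (fun ρ => (H.reg ρ).sub (hg ρ)) hκ0 hκ ?_ hM α hα0 hα v hv hvgap w hw hwgap h1 h2
    have h := H.small.sub hgs
    rw [sub_zero] at h
    refine h.congr fun n => ?_
    ring
  · intro h
    obtain ⟨C, hC⟩ := h 0 0 le_rfl hκ0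
    have h1 : ∀ᶠ n : ℕ in atTop, |Real.log (c n / μ ^ n) - g n| ≤ C * (n : ℝ) ^ (-M) := by
      filter_upwards [hC] with n hn
      have e : D2 0 (fun n => Real.log (c n / μ ^ n) - g n) n =
          Real.log (c n / μ ^ n) - g n := by
        simp [D2]
      rw [e] at hn
      refine hn.trans (le_of_eq ?_)
      congr 2
      simp
    have key : ∀ (t p : ℕ → ℕ), Tendsto t atTop atTop → (∀ j, t j ≤ p j) →
        ∃ C : ℝ, ∀ᶠ j : ℕ in atTop,
          |(fun n => Real.log (c n / μ ^ n) - g n) (2 * p j) -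
            2 * (fun n => Real.log (c n / μ ^ n) - g n) (p j)| ≤ C * (t j : ℝ) ^ (-M) := by
      intro t p ht hp
      refine ⟨3 * |C|, ?_⟩
      have hpt : Tendsto p atTop atTop := tendsto_atTop_mono hp ht
      have hpt2 : Tendsto (fun j => 2 * p j) atTop atTop :=
        tendsto_atTop_mono (fun j => (by omega : p j ≤ 2 * p j)) hpt
      filter_upwards [hpt.eventually h1, hpt2.eventually h1, ht.eventually_ge_atTop 1] with
        j h3 h4 h5
      have htp : (0 : ℝ) < t j := by exact_mod_cast h5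
      have hb : ∀ m : ℕ, t j ≤ m → C * (m : ℝ) ^ (-M) ≤ |C| * (t j : ℝ) ^ (-M) := fun m hm =>
        (mul_le_mul_of_nonneg_right (le_abs_self C) (by positivity)).trans
          (mul_le_mul_of_nonneg_left (Real.rpow_le_rpow_of_nonpos htp (by exact_mod_cast hm)
            (by linarith)) (abs_nonneg _))
      have h6 := h3.trans (hb _ (hp j))
      have h7 := h4.trans (hb _ (by have := hp j; omega))
      rw [abs_le] at h6 h7 ⊢
      constructor <;> linarith [h6.1, h6.2, h7.1, h7.2]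
    exact ⟨key v (fun j => 2 * v j) hv (fun j => by omega),
      key w (fun j => 2 * w j + 1) hw (fun j => by omega)⟩

/-- rates for the pure power, all lengths -/
theorem rate_iff (hκ0 : 0 < κ) (hκ : κ ≤ 1) {s A B : ℝ} (hA : 0 < A) (hB : 0 < B)
    (hAB : A * B = 2 ^ s) {M : ℝ} (hM : 0 < M) :
    (∃ C : ℝ, ∀ᶠ n : ℕ in atTop, |Rt c n / (n : ℝ) ^ (-s) - B| ≤ C * (n : ℝ) ^ (-M)) ↔
    ∃ C : ℝ, ∀ᶠ n : ℕ in atTop, |c n / (μ ^ n * (n : ℝ) ^ s) - A| ≤ C * (n : ℝ) ^ (-M) := by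
  have hε : Tendsto (fun n : ℕ => (n : ℝ) ^ (-M)) atTop (𝓝 0) := rpow_neg_tendsto tendsto_id hM
  have hmul : ∀ᶠ n : ℕ in atTop, Rt c n / (n : ℝ) ^ (-s) = Rt c n * (n : ℝ) ^ s := by
    filter_upwards [eventually_ge_atTop 1] with n hn
    have hnp : (0 : ℝ) < n := by exact_mod_cast hn
    rw [Real.rpow_neg hnp.le, div_inv_eq_mul]
  have hRpos : ∀ᶠ n : ℕ in atTop, 0 < Rt c n * (n : ℝ) ^ s := by
    filter_upwards [eventually_ge_atTop 1] with n hn
    have := Rt_pos H n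
    have hnp : (0 : ℝ) < n := by exact_mod_cast hn
    positivity
  constructor
  · rintro ⟨C, hC⟩
    obtain ⟨C1, hC1⟩ := log_close (x := fun n : ℕ => Rt c n * (n : ℝ) ^ s) hB hε
      ⟨C, by
        filter_upwards [hC, hmul] with n h1 h2
        rwa [h2] at h1⟩ (Eventually.of_forall fun j => by positivity)
    have h1 : ∃ C : ℝ, ∀ᶠ n : ℕ in atTop,
        |(fun n => Real.log (c n / μ ^ n) - gA s A n) (2 * n) -
          2 * (fun n => Real.log (c n / μ ^ n) - gA s A n) n| ≤ C * (n : ℝ) ^ (-M) := by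
      refine ⟨C1, ?_⟩
      filter_upwards [hC1, eventually_ge_atTop 1] with n h2 h3
      rw [ratio_log H hA hB hAB h3] at h2
      exact h2
    obtain ⟨C2, hC2⟩ := h1
    have hgap : ∀ᶠ j : ℕ in atTop, (((fun j => j) (j + 1) : ℕ) : ℝ) ≤
        (((fun j => j) j : ℕ) : ℝ) + (((fun j => j) j : ℕ) : ℝ) ^ (0 : ℝ) := by
      refine Eventually.of_forall fun j => ?_
      simp
    have hsub : ∀ p : ℕ → ℕ, (∀ j, j ≤ p j) → ∃ C : ℝ, ∀ᶠ j : ℕ in atTop,
        |(fun n => Real.log (c n / μ ^ n) - gA s A n) (2 * p j) -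
          2 * (fun n => Real.log (c n / μ ^ n) - gA s A n) (p j)| ≤ C * (j : ℝ) ^ (-M) := by
      intro p hp
      refine ⟨|C2|, ?_⟩
      have hpt : Tendsto p atTop atTop := tendsto_atTop_mono hp tendsto_id
      filter_upwards [hpt.eventually hC2, eventually_ge_atTop 1] with j h3 h4
      have hj : (0 : ℝ) < j := by exact_mod_cast h4
      exact h3.trans ((mul_le_mul_of_nonneg_right (le_abs_self _) (by positivity)).trans
        (mul_le_mul_of_nonneg_left (Real.rpow_le_rpow_of_nonpos hj (by exact_mod_cast hp j)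
            (by linarith)) (abs_nonneg _)))
    have h2 := dbl_O (F := fun n => Real.log (c n / μ ^ n) - gA s A n) (F_reg H hκ s A) hκ0 hκ
      (F_small H s A) hM.le 0 le_rfl hκ0 (fun j => j) tendsto_id hgap (fun j => j) tendsto_id hgap
      (hsub (fun j => 2 * j) (fun j => by omega)) (hsub (fun j => 2 * j + 1) (fun j => by omega))
      0 0 le_rfl hκ0
    obtain ⟨C3, hC3⟩ := h2
    refine close_log hA ((eventually_ge_atTop 1).mono fun n hn => norm_pos H hn) hε ⟨C3, ?_⟩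
    filter_upwards [hC3, eventually_ge_atTop 1] with n h3 h4
    have e : D2 0 (fun n => Real.log (c n / μ ^ n) - gA s A n) n =
        Real.log (c n / μ ^ n) - gA s A n := by
      simp [D2]
    rw [e] at h3
    rw [norm_log H h4]
    refine h3.trans (le_of_eq ?_)
    congr 2
    simp
  · intro h
    obtain ⟨C, hC⟩ := log_close hA hε h (Eventually.of_forall fun j => by positivity)
    have h1 : ∃ C : ℝ, ∀ᶠ n : ℕ in atTop,
        |Real.log (Rt c n * (n : ℝ) ^ s) - Real.log B| ≤ C * (n : ℝ) ^ (-M) := by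
      refine ⟨3 * |C|, ?_⟩
      have h2 : Tendsto (fun n : ℕ => 2 * n) atTop atTop :=
        tendsto_atTop_mono (fun n => (by omega : n ≤ 2 * n)) tendsto_id
      filter_upwards [hC, h2.eventually hC, eventually_ge_atTop 1] with n h3 h4 h5
      rw [norm_log H h5] at h3
      rw [norm_log H (by omega)] at h4
      rw [ratio_log H hA hB hAB h5]
      have hnp : (0 : ℝ) < n := by exact_mod_cast h5
      have hb : ∀ m : ℕ, n ≤ m → C * (m : ℝ) ^ (-M) ≤ |C| * (n : ℝ) ^ (-M) := fun m hm =>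
        (mul_le_mul_of_nonneg_right (le_abs_self C) (by positivity)).trans
          (mul_le_mul_of_nonneg_left (Real.rpow_le_rpow_of_nonpos hnp (by exact_mod_cast hm)
            (by linarith)) (abs_nonneg _))
      have h6 := h3.trans (hb n le_rfl)
      have h7 := h4.trans (hb (2 * n) (by omega))
      rw [abs_le] at h6 h7 ⊢
      constructor <;> linarith [h6.1, h6.2, h7.1, h7.2]
    obtain ⟨C2, hC2⟩ := close_log hB hRpos hε h1
    refine ⟨C2, ?_⟩
    filter_upwards [hC2, hmul] with n h3 h4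
    rw [h4]
    exact h3

/-- the pure power with a rate in terms of ratios of ratios at two scales -/
theorem two_rate_iff (hκ0 : 0 < κ) (hκ : κ ≤ 1)
    {a b : ℕ} (ha : 2 ≤ a) (hb : 2 ≤ b) (hab : Indep a b) {M : ℝ} (hM : 0 < M) (α : ℝ)
    (hα0 : 0 ≤ α) (hα : α < κ)
    (v : ℕ → ℕ) (hv : Tendsto v atTop atTop)
    (hvgap : ∀ᶠ j : ℕ in atTop, (v (j + 1) : ℝ) ≤ v j + (v j : ℝ) ^ α)
    (w : ℕ → ℕ) (hw : Tendsto w atTop atTop)
    (hwgap : ∀ᶠ j : ℕ in atTop, (w (j + 1) : ℝ) ≤ w j + (w j : ℝ) ^ α)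
    (u : ℕ → ℕ) (hu : Tendsto u atTop atTop)
    (hugap : ∀ᶠ j : ℕ in atTop, (u (j + 1) : ℝ) ≤ u j + (u j : ℝ) ^ α) (s : ℝ) :
    ((∃ C : ℝ, ∀ᶠ j : ℕ in atTop,
        |Rt c (a * (2 * v j)) / Rt c (2 * v j) - (a : ℝ) ^ (-s)| ≤ C * (v j : ℝ) ^ (-M)) ∧
      (∃ C : ℝ, ∀ᶠ j : ℕ in atTop,
        |Rt c (b * (2 * w j)) / Rt c (2 * w j) - (b : ℝ) ^ (-s)| ≤ C * (w j : ℝ) ^ (-M)) ∧
      ∃ C : ℝ, ∀ᶠ j : ℕ in atTop,
        |Rt c (2 * (2 * u j + 1)) / Rt c (2 * u j + 1) - (2 : ℝ) ^ (-s)| ≤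
          C * (u j : ℝ) ^ (-M)) ↔
    ∃ A : ℝ, 0 < A ∧ ∃ C : ℝ, ∀ᶠ n : ℕ in atTop,
      |c n / (μ ^ n * (n : ℝ) ^ s) - A| ≤ C * (n : ℝ) ^ (-M) := by
  rw [par_ratio_iff hκ0 hκ (X := Rt c) (Eventually.of_forall fun n => Rt_pos H n) (reg_Rt H)
    ha hb hab hM α hα0 hα v hv hvgap w hw hwgap u hu hugap (-s)]
  constructor
  · rintro ⟨B, hB, h⟩
    have hA : (0 : ℝ) < 2 ^ s / B := by positivity
    exact ⟨2 ^ s / B, hA, (rate_iff H hκ0 hκ hA hB (by field_simp) hM).1 h⟩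
  · rintro ⟨A, hA, h⟩
    have hB : (0 : ℝ) < 2 ^ s / A := by positivity
    exact ⟨2 ^ s / A, hB, (rate_iff H hκ0 hκ hA hB (by field_simp) hM).2 h⟩

end

end Pool.Agent.U17.TS
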