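import Pool.Agent.U17.TS.ParRatio
import Pool.Agent.N226.SX.Little

/-!
# Doubling `F (2 n) - 2 F n` for sequences which are regular in both parity classes
-/

set_option autoImplicit false

namespace Pool.Agent.U17.TS

open Finset Filter Topology Pool.Agent.N226.SX

theorem reg_shift {κ : ℝ} {f : ℕ → ℝ} (h : Reg κ f) (c : ℕ) : Reg κ (fun k => f (k + c)) := by
  intro a ha0 ha r hr
  obtain ⟨C, hC⟩ := h a ha0 ha r hr
  refine ⟨|C|, ?_⟩
  have ht : Tendsto (fun k : ℕ => k + c) atTop atTop := tendsto_add_atTop_nat c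
  filter_upwards [ht.eventually hC, eventually_ge_atTop 1] with k h1 h2
  have hkp : (0 : ℝ) < k := by exact_mod_cast h2
  have e : D r (fun k => f (k + c)) k = D r f (k + c) := by
    unfold D
    refine Finset.sum_congr rfl fun i _ => ?_
    simp only
    rw [show k + i + c = k + c + i by ring]
  rw [e]
  have h4 : ((k + c : ℕ) : ℝ) ^ (-(a * r)) ≤ (k : ℝ) ^ (-(a * r)) :=
    Real.rpow_le_rpow_of_nonpos hkp (by exact_mod_cast (by omega : k ≤ k + c)) (by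
      have : 0 ≤ a * r := by positivity
      linarith)
  exact h1.trans ((mul_le_mul_of_nonneg_right (le_abs_self C) (by positivity)).trans
      (mul_le_mul_of_nonneg_left h4 (abs_nonneg C)))

theorem dbl_solve {F : ℕ → ℝ} (hF : Tendsto (fun n : ℕ => F n / n) atTop (𝓝 0)) {M ε : ℝ}
    (hM : 0 ≤ M) (hε : 0 ≤ ε) {N : ℕ} (hN : 1 ≤ N)
    (h : ∀ n, N ≤ n → |F (2 * n) - 2 * F n| ≤ ε * (n : ℝ) ^ (-M)) :
    ∀ n, N ≤ n → |F n| ≤ ε * (n : ℝ) ^ (-M) := by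
  intro n hn
  have hn1 : 1 ≤ n := hN.trans hn
  have hnp : (0 : ℝ) < n := by exact_mod_cast hn1
  have hJ : ∀ J : ℕ, |F n| ≤ |F (2 ^ J * n)| / 2 ^ J + (1 - 1 / 2 ^ J) * (ε * (n : ℝ) ^ (-M)) := by
    intro J
    induction J with
    | zero => simp
    | succ J ih =>
      obtain ⟨m, hm⟩ : ∃ m, m = 2 ^ J * n := ⟨_, rfl⟩
      have hnm : n ≤ m := by rw [hm]; exact Nat.le_mul_of_pos_left _ (by positivity)
      have e : 2 ^ (J + 1) * n = 2 * m := by rw [hm]; ring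
      rw [← hm] at ih
      rw [e]
      have h1 := h m (hn.trans hnm)
      have h2 : (m : ℝ) ^ (-M) ≤ (n : ℝ) ^ (-M) :=
        Real.rpow_le_rpow_of_nonpos hnp (by exact_mod_cast hnm) (by linarith)
      have h3 : ε * (m : ℝ) ^ (-M) ≤ ε * (n : ℝ) ^ (-M) := mul_le_mul_of_nonneg_left h2 hε
      have h4 : 2 * |F m| ≤ |F (2 * m)| + ε * (n : ℝ) ^ (-M) := by
        have h5 : |2 * F m| ≤ |F (2 * m)| + |F (2 * m) - 2 * F m| := by
          have := abs_sub (F (2 * m)) (F (2 * m) - 2 * F m)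
          rwa [sub_sub_cancel] at this
        rw [abs_mul, abs_two] at h5
        linarith
      have h6 : |F m| / 2 ^ J ≤ (|F (2 * m)| + ε * (n : ℝ) ^ (-M)) / 2 / 2 ^ J :=
        div_le_div_of_nonneg_right (by linarith) (by positivity)
      refine ih.trans ?_
      have h7 : (|F (2 * m)| + ε * (n : ℝ) ^ (-M)) / 2 / 2 ^ J + (1 - 1 / 2 ^ J) *
          (ε * (n : ℝ) ^ (-M)) = |F (2 * m)| / 2 ^ (J + 1) + (1 - 1 / 2 ^ (J + 1)) *
          (ε * (n : ℝ) ^ (-M)) := by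
        rw [pow_succ]
        field_simp
        ring
      rw [← h7]
      linarith
  have ht : Tendsto (fun J : ℕ => |F (2 ^ J * n)| / 2 ^ J) atTop (𝓝 0) := by
    have h1 : Tendsto (fun J : ℕ => 2 ^ J * n) atTop atTop :=
      tendsto_atTop_mono (fun J => Nat.le_mul_of_pos_right _ hn1)
        (tendsto_pow_atTop_atTop_of_one_lt one_lt_two)
    have h2 := ((hF.comp h1).abs).mul_const (n : ℝ)
    rw [abs_zero, zero_mul] at h2
    refine h2.congr fun J => ?_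
    simp only [Function.comp_apply]
    push_cast
    rw [abs_div, abs_of_pos (by positivity : (0 : ℝ) < 2 ^ J * n)]
    field_simp
  have hle : ∀ J : ℕ, |F n| ≤ |F (2 ^ J * n)| / 2 ^ J + ε * (n : ℝ) ^ (-M) := by
    intro J
    refine (hJ J).trans ?_
    have h1 : (1 - 1 / (2 : ℝ) ^ J) * (ε * (n : ℝ) ^ (-M)) ≤ 1 * (ε * (n : ℝ) ^ (-M)) :=
      mul_le_mul_of_nonneg_right (by
        have : (0 : ℝ) ≤ 1 / 2 ^ J := by positivity
        linarith) (by positivity)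
    linarith
  have h3 := ge_of_tendsto' (ht.add_const (ε * (n : ℝ) ^ (-M))) hle
  rwa [zero_add] at h3

section

variable {κ : ℝ} {F : ℕ → ℝ} (hF : ∀ ρ : ℕ, Reg κ (fun k => F (2 * k + ρ)))

include hF

/-- the doubled sequence is regular in the classes -/
theorem reg_dbl (ρ : ℕ) :
    Reg κ (fun k => (fun n => F (2 * n) - 2 * F n) (2 * k + ρ)) := by
  have h0 : Reg κ (fun k => F (2 * k)) := hF 0
  have h1 : Reg κ (fun k => (fun m => F (2 * (m + ρ))) (2 * k)) :=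
    reg_scale (reg_shift h0 ρ) (by norm_num : 1 ≤ 2)
  have h2 := (h1.sub (hF ρ)).sub (hF ρ)
  refine fun a ha0 ha r hr => ?_
  obtain ⟨C, hC⟩ := h2 a ha0 ha r hr
  refine ⟨C, hC.mono fun n hn => ?_⟩
  refine le_trans (le_of_eq ?_) hn
  congr 1
  refine D_congr _ _ _ _ fun i _ => ?_
  simp only
  ring

theorem dbl_O (hκ0 : 0 < κ) (hκ : κ ≤ 1) (hF0 : Tendsto (fun n : ℕ => F n / n) atTop (𝓝 0)) {M : ℝ}
    (hM : 0 ≤ M) (α : ℝ) (hα0 : 0 ≤ α) (hα : α < κ)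
    (v : ℕ → ℕ) (hv : Tendsto v atTop atTop)
    (hvgap : ∀ᶠ j : ℕ in atTop, (v (j + 1) : ℝ) ≤ v j + (v j : ℝ) ^ α)
    (w : ℕ → ℕ) (hw : Tendsto w atTop atTop)
    (hwgap : ∀ᶠ j : ℕ in atTop, (w (j + 1) : ℝ) ≤ w j + (w j : ℝ) ^ α)
    (h0 : ∃ C : ℝ, ∀ᶠ j : ℕ in atTop,
      |F (2 * (2 * v j)) - 2 * F (2 * v j)| ≤ C * (v j : ℝ) ^ (-M))
    (h1 : ∃ C : ℝ, ∀ᶠ j : ℕ in atTop,
      |F (2 * (2 * w j + 1)) - 2 * F (2 * w j + 1)| ≤ C * (w j : ℝ) ^ (-M)) :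
    ∀ (s : ℕ) (x : ℝ), 0 ≤ x → x < κ → ∃ C : ℝ, ∀ᶠ n : ℕ in atTop,
      |D2 s F n| ≤ C * (n : ℝ) ^ (-(M + x * s)) := by
  have hd : ∃ C : ℝ, ∀ᶠ n : ℕ in atTop, |(fun n => F (2 * n) - 2 * F n) n| ≤
      C * (n : ℝ) ^ (-M) := by
    refine classes hM fun ρ hρ => ?_
    have key : ∃ C : ℝ, ∀ᶠ k : ℕ in atTop, |D 0 (fun k => (fun n => F (2 * n) - 2 * F n)
        (2 * k + ρ)) k| ≤ C * (k : ℝ) ^ (-(M + 0 * ((0 : ℕ) : ℝ))) := by
      rcases (by omega : ρ = 0 ∨ ρ = 1) with rfl | rfl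
      · exact sparse (reg_dbl hF 0) hκ hM hα0 hα v hv hvgap h0 0 0 le_rfl hκ0
      · exact sparse (reg_dbl hF 1) hκ hM hα0 hα w hw hwgap h1 0 0 le_rfl hκ0
    obtain ⟨C, hC⟩ := key
    refine ⟨C, hC.mono fun k hk => ?_⟩
    rw [D_zero] at hk
    refine hk.trans (le_of_eq ?_)
    congr 2
    simp
  obtain ⟨C, hC⟩ := hd
  obtain ⟨N, hN⟩ := eventually_atTop.1 hC
  have hb := dbl_solve hF0 hM (abs_nonneg C) (le_max_right N 1) (fun n hn =>
    (hN n ((le_max_left _ _).trans hn)).trans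
      (mul_le_mul_of_nonneg_right (le_abs_self C) (by positivity)))
  have hall : ∀ᶠ n : ℕ in atTop, |F n| ≤ |C| * (n : ℝ) ^ (-M) :=
    (eventually_ge_atTop (max N 1)).mono hb
  intro s x hx0 hx
  refine classes (by positivity) fun ρ _ => ?_
  obtain ⟨C', hC'⟩ := class_of_all hM hall ρ
  have h3 : Bd (fun k => F (2 * k + ρ)) 0 M := by
    refine ⟨C', hC'.mono fun k hk => ?_⟩
    rw [D_zero]
    exact hk
  obtain ⟨C2, hC2⟩ := Bd.differences (hF ρ) hM hx0 hx h3 s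
  refine ⟨C2, hC2.mono fun k hk => ?_⟩
  rw [D2_eq]
  exact hk

theorem dbl_little (hκ : κ ≤ 1) (hF0 : Tendsto (fun n : ℕ => F n / n) atTop (𝓝 0))
    (α : ℝ) (hα0 : 0 ≤ α) (hα : α < κ)
    (v : ℕ → ℕ) (hv : Tendsto v atTop atTop)
    (hvgap : ∀ᶠ j : ℕ in atTop, (v (j + 1) : ℝ) ≤ v j + (v j : ℝ) ^ α)
    (w : ℕ → ℕ) (hw : Tendsto w atTop atTop)
    (hwgap : ∀ᶠ j : ℕ in atTop, (w (j + 1) : ℝ) ≤ w j + (w j : ℝ) ^ α)
    (h0 : Tendsto (fun j => F (2 * (2 * v j)) - 2 * F (2 * v j)) atTop (𝓝 0))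
    (h1 : Tendsto (fun j => F (2 * (2 * w j + 1)) - 2 * F (2 * w j + 1)) atTop (𝓝 0)) :
    Tendsto F atTop (𝓝 0) := by
  have hcl : ∀ ρ < 2, Tendsto (fun k => (fun n => F (2 * n) - 2 * F n) (2 * k + ρ)) atTop
      (𝓝 0) := by
    intro ρ hρ
    rcases (by omega : ρ = 0 ∨ ρ = 1) with rfl | rfl
    · have := sparse_little (reg_dbl hF 0) hκ le_rfl hα0 hα v hv hvgap (by simpa using h0)
      simpa using this
    · have := sparse_little (reg_dbl hF 1) hκ le_rfl hα0 hα w hw hwgap (by simpa using h1)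
      simpa using this
  rw [Metric.tendsto_atTop]
  intro ε hε
  obtain ⟨N0, hN0⟩ := Metric.tendsto_atTop.1 (hcl 0 (by norm_num)) (ε / 2) (by positivity)
  obtain ⟨N1, hN1⟩ := Metric.tendsto_atTop.1 (hcl 1 (by norm_num)) (ε / 2) (by positivity)
  have hb : ∀ n, max 1 (2 * max N0 N1 + 1) ≤ n →
      |F (2 * n) - 2 * F n| ≤ ε / 2 * (n : ℝ) ^ (-(0 : ℝ)) := by
    intro n hn
    rw [neg_zero, Real.rpow_zero, mul_one]
    have hn2 : 2 * max N0 N1 + 1 ≤ n := (le_max_right _ _).trans hn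
    have h3 : N0 ≤ n / 2 := by have := le_max_left N0 N1; omega
    have h4 : N1 ≤ n / 2 := by have := le_max_right N0 N1; omega
    rcases Nat.mod_two_eq_zero_or_one n with hm | hm
    · have e : 2 * (n / 2) + 0 = n := by omega
      have h5 := hN0 _ h3
      rw [Real.dist_eq, sub_zero] at h5
      simp only [e] at h5
      exact h5.le
    · have e : 2 * (n / 2) + 1 = n := by omega
      have h5 := hN1 _ h4
      rw [Real.dist_eq, sub_zero] at h5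
      simp only [e] at h5
      exact h5.le
  refine ⟨max 1 (2 * max N0 N1 + 1), fun n hn => ?_⟩
  have h5 := dbl_solve hF0 le_rfl (by positivity : 0 ≤ ε / 2) (le_max_left _ _) hb n hn
  rw [neg_zero, Real.rpow_zero, mul_one] at h5
  rw [Real.dist_eq, sub_zero]
  linarith

end

end Pool.Agent.U17.TS
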