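import Pool.Agent.U17.TS.Scale

/-!
# Asymptotic forms of positive sequences and ratios at two scales
-/

set_option autoImplicit false

namespace Pool.Agent.U17.TS

open Finset Filter Topology Pool.Agent.N226.SX

theorem rpow_neg_tendsto {v : ℕ → ℕ} (hv : Tendsto v atTop atTop) {M : ℝ} (hM : 0 < M) :
    Tendsto (fun j => (v j : ℝ) ^ (-M)) atTop (𝓝 0) :=
  (tendsto_rpow_neg_atTop hM).comp (tendsto_natCast_atTop_atTop.comp hv)

/-- the two-scale criterion with a general comparison sequence -/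
theorem form_iff {κ : ℝ} (hκ0 : 0 < κ) (hκ : κ ≤ 1) {X g : ℕ → ℝ} (hX : ∀ᶠ n in atTop, 0 < X n)
    (hf : Reg κ (fun n => Real.log (X n))) (hg : Reg κ g)
    {a b : ℕ} (ha : 2 ≤ a) (hb : 2 ≤ b) (hab : Indep a b) {M : ℝ} (hM : 0 < M) (α : ℝ)
    (hα0 : 0 ≤ α) (hα : α < κ)
    (v : ℕ → ℕ) (hv : Tendsto v atTop atTop)
    (hvgap : ∀ᶠ j : ℕ in atTop, (v (j + 1) : ℝ) ≤ v j + (v j : ℝ) ^ α)
    (w : ℕ → ℕ) (hw : Tendsto w atTop atTop)
    (hwgap : ∀ᶠ j : ℕ in atTop, (w (j + 1) : ℝ) ≤ w j + (w j : ℝ) ^ α) :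
    ((∃ C : ℝ, ∀ᶠ j : ℕ in atTop,
        |Real.log (X (a * v j) / X (v j)) - (g (a * v j) - g (v j))| ≤ C * (v j : ℝ) ^ (-M)) ∧
      ∃ C : ℝ, ∀ᶠ j : ℕ in atTop,
        |Real.log (X (b * w j) / X (w j)) - (g (b * w j) - g (w j))| ≤ C * (w j : ℝ) ^ (-M)) ↔
    ∃ c₀ : ℝ, 0 < c₀ ∧ ∀ (s : ℕ) (x : ℝ), 0 ≤ x → x < κ → ∃ C : ℝ, ∀ᶠ k : ℕ in atTop,
      |D s (fun n => Real.log (X n) - Real.log c₀ - g n) k| ≤ C * (k : ℝ) ^ (-(M + x * s)) := by
  have hlog : ∀ {c : ℕ}, 1 ≤ c → ∀ u : ℕ → ℕ, Tendsto u atTop atTop → ∀ᶠ j : ℕ in atTop,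
      Real.log (X (c * u j) / X (u j)) = Real.log (X (c * u j)) - Real.log (X (u j)) := by
    intro c hc u hu
    have h2 : Tendsto (fun j : ℕ => c * u j) atTop atTop :=
      tendsto_atTop_mono (fun j => Nat.le_mul_of_pos_left _ hc) hu
    filter_upwards [hu.eventually hX, h2.eventually hX] with j h3 h4
    rw [Real.log_div h4.ne' h3.ne']
  constructor
  · rintro ⟨⟨C1, h1⟩, ⟨C2, h2⟩⟩
    obtain ⟨ℓ, hℓ⟩ := main hκ0 hκ hf hg ha hb hab hM α hα0 hα v hv hvgap w hw hwgap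
      ⟨C1, by
        filter_upwards [h1, hlog (by omega : 1 ≤ a) v hv] with j h3 h4
        rw [h4] at h3
        exact h3⟩
      ⟨C2, by
        filter_upwards [h2, hlog (by omega : 1 ≤ b) w hw] with j h3 h4
        rw [h4] at h3
        exact h3⟩
    refine ⟨Real.exp ℓ, Real.exp_pos _, fun s x hx0 hx => ?_⟩
    obtain ⟨C, hC⟩ := hℓ s x hx0 hx
    refine ⟨C, hC.mono fun k hk => ?_⟩
    refine le_trans (le_of_eq ?_) hk
    congr 1
    refine D_congr _ _ _ _ fun i _ => ?_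
    rw [Real.log_exp]
    ring
  · rintro ⟨c₀, hc₀, h⟩
    obtain ⟨C, hC⟩ := h 0 0 le_rfl hκ0
    have h1 : ∀ᶠ n : ℕ in atTop, |Real.log (X n) - g n - Real.log c₀| ≤ C * (n : ℝ) ^ (-M) := by
      filter_upwards [hC] with n hn
      rw [D_zero] at hn
      refine le_trans (le_of_eq ?_) (hn.trans (le_of_eq ?_))
      · congr 1; ring
      · congr 2; simp
    refine ⟨?_, ?_⟩
    · obtain ⟨C', hC'⟩ := converse (f := fun n => Real.log (X n)) (g := g) hM.le h1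
        (by omega : 1 ≤ a) v hv
      refine ⟨C', ?_⟩
      filter_upwards [hC', hlog (by omega : 1 ≤ a) v hv] with j h3 h4
      rw [h4]
      exact h3
    · obtain ⟨C', hC'⟩ := converse (f := fun n => Real.log (X n)) (g := g) hM.le h1
        (by omega : 1 ≤ b) w hw
      refine ⟨C', ?_⟩
      filter_upwards [hC', hlog (by omega : 1 ≤ b) w hw] with j h3 h4
      rw [h4]
      exact h3

theorem log_scale {θ : ℝ} {a : ℕ} (ha : 1 ≤ a) {n : ℕ} (hn : 1 ≤ n) :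
    θ * Real.log ((a * n : ℕ) : ℝ) - θ * Real.log n = Real.log ((a : ℝ) ^ θ) := by
  have h1 : (0 : ℝ) < a := by exact_mod_cast ha
  have h2 : (0 : ℝ) < n := by exact_mod_cast hn
  rw [Nat.cast_mul, Real.log_mul h1.ne' h2.ne', Real.log_rpow h1]
  ring

theorem reg_log (κ : ℝ) (hκ : κ ≤ 1) (θ : ℝ) : Reg κ (fun n : ℕ => θ * Real.log n) := by
  have h := reg_G1 κ hκ 0 θ (fun i => i.elim0) (fun i => i.elim0) (fun i => i.elim0)
  refine fun a h0 h1 r hr => ?_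
  obtain ⟨C, hC⟩ := h a h0 h1 r hr
  refine ⟨C, hC.mono fun n hn => ?_⟩
  refine le_trans (le_of_eq ?_) hn
  congr 1
  refine D_congr _ _ _ _ fun i _ => ?_
  unfold G
  simp

/-- the two-scale criterion for `X n ~ c₀ n ^ θ` with a rate -/
theorem ratio_iff {κ : ℝ} (hκ0 : 0 < κ) (hκ : κ ≤ 1) {X : ℕ → ℝ} (hX : ∀ᶠ n in atTop, 0 < X n)
    (hf : Reg κ (fun n => Real.log (X n)))
    {a b : ℕ} (ha : 2 ≤ a) (hb : 2 ≤ b) (hab : Indep a b) {M : ℝ} (hM : 0 < M) (α : ℝ)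
    (hα0 : 0 ≤ α) (hα : α < κ)
    (v : ℕ → ℕ) (hv : Tendsto v atTop atTop)
    (hvgap : ∀ᶠ j : ℕ in atTop, (v (j + 1) : ℝ) ≤ v j + (v j : ℝ) ^ α)
    (w : ℕ → ℕ) (hw : Tendsto w atTop atTop)
    (hwgap : ∀ᶠ j : ℕ in atTop, (w (j + 1) : ℝ) ≤ w j + (w j : ℝ) ^ α) (θ : ℝ) :
    ((∃ C : ℝ, ∀ᶠ j : ℕ in atTop,
        |X (a * v j) / X (v j) - (a : ℝ) ^ θ| ≤ C * (v j : ℝ) ^ (-M)) ∧
      ∃ C : ℝ, ∀ᶠ j : ℕ in atTop,
        |X (b * w j) / X (w j) - (b : ℝ) ^ θ| ≤ C * (w j : ℝ) ^ (-M)) ↔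
    ∃ c₀ : ℝ, 0 < c₀ ∧ ∃ C : ℝ, ∀ᶠ n : ℕ in atTop,
      |X n / (n : ℝ) ^ θ - c₀| ≤ C * (n : ℝ) ^ (-M) := by
  have hmain := form_iff hκ0 hκ hX hf (reg_log κ hκ θ) ha hb hab hM α hα0 hα v hv hvgap w hw hwgap
  have conv : ∀ {c : ℕ}, 2 ≤ c → ∀ u : ℕ → ℕ, Tendsto u atTop atTop →
      ((∃ C : ℝ, ∀ᶠ j : ℕ in atTop,
        |X (c * u j) / X (u j) - (c : ℝ) ^ θ| ≤ C * (u j : ℝ) ^ (-M)) ↔
      ∃ C : ℝ, ∀ᶠ j : ℕ in atTop,
        |Real.log (X (c * u j) / X (u j)) - (θ * Real.log ((c * u j : ℕ) : ℝ) -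
          θ * Real.log (u j))| ≤ C * (u j : ℝ) ^ (-M)) := by
    intro c hc u hu
    have hc0 : (0 : ℝ) < c := by exact_mod_cast (by omega : 0 < c)
    have hy : (0 : ℝ) < (c : ℝ) ^ θ := by positivity
    have h2 : Tendsto (fun j : ℕ => c * u j) atTop atTop :=
      tendsto_atTop_mono (fun j => Nat.le_mul_of_pos_left _ (by omega)) hu
    have hpos : ∀ᶠ j : ℕ in atTop, 0 < X (c * u j) / X (u j) := by
      filter_upwards [hu.eventually hX, h2.eventually hX] with j h3 h4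
      exact div_pos h4 h3
    have hε := rpow_neg_tendsto hu hM
    constructor
    · intro h
      obtain ⟨C, hC⟩ := log_close hy hε h (Eventually.of_forall fun j => by positivity)
      refine ⟨C, ?_⟩
      filter_upwards [hC, hu.eventually_ge_atTop 1] with j h3 h4
      rw [log_scale (by omega) h4]
      exact h3
    · rintro ⟨C, hC⟩
      refine close_log hy hpos hε ⟨C, ?_⟩
      filter_upwards [hC, hu.eventually_ge_atTop 1] with j h3 h4
      rw [log_scale (by omega) h4] at h3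
      exact h3
  rw [conv ha v hv, conv hb w hw, hmain]
  have hε : Tendsto (fun n : ℕ => (n : ℝ) ^ (-M)) atTop (𝓝 0) := rpow_neg_tendsto tendsto_id hM
  have hXn : ∀ᶠ n : ℕ in atTop, 0 < X n / (n : ℝ) ^ θ := by
    filter_upwards [hX, eventually_ge_atTop 1] with n h1 h2
    have : (0 : ℝ) < n := by exact_mod_cast h2
    positivity
  have hl : ∀ᶠ n : ℕ in atTop, Real.log (X n / (n : ℝ) ^ θ) =
      Real.log (X n) - θ * Real.log n := by
    filter_upwards [hX, eventually_ge_atTop 1] with n h1 h2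
    have h3 : (0 : ℝ) < n := by exact_mod_cast h2
    rw [Real.log_div h1.ne' (by positivity), Real.log_rpow h3]
  constructor
  · rintro ⟨c₀, hc₀, h⟩
    refine ⟨c₀, hc₀, ?_⟩
    obtain ⟨C, hC⟩ := h 0 0 le_rfl hκ0
    refine close_log hc₀ hXn hε ⟨C, ?_⟩
    filter_upwards [hC, hl] with n hn h2
    rw [D_zero] at hn
    rw [h2]
    refine le_trans (le_of_eq ?_) (hn.trans (le_of_eq ?_))
    · congr 1; ring
    · congr 2; simp
  · rintro ⟨c₀, hc₀, h⟩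
    refine ⟨c₀, hc₀, fun s x hx0 hx => ?_⟩
    obtain ⟨C, hC⟩ := log_close hc₀ hε h (Eventually.of_forall fun j => by positivity)
    have h2 : Reg κ (fun n : ℕ => Real.log (X n) - Real.log c₀ - θ * Real.log n) :=
      (hf.sub (reg_const κ _)).sub (reg_log κ hκ θ)
    have h3 : Bd (fun n : ℕ => Real.log (X n) - Real.log c₀ - θ * Real.log n) 0 M := by
      refine ⟨C, ?_⟩
      filter_upwards [hC, hl] with n hn h4
      rw [D_zero]
      rw [h4] at hn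
      refine le_trans (le_of_eq ?_) hn
      congr 1; ring
    exact Bd.differences h2 hM.le hx0 hx h3 s

end Pool.Agent.U17.TS
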