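import Pool.Agent.U17.TS.Form

/-!
# Two scales for sequences which are regular in both parity classes
-/

set_option autoImplicit false

namespace Pool.Agent.U17.TS

open Finset Filter Topology Pool.Agent.N226.SX

theorem conv_pair {f g : ℕ → ℝ} {M ℓ C : ℝ} (hM : 0 ≤ M)
    (h : ∀ᶠ n : ℕ in atTop, |f n - g n - ℓ| ≤ C * (n : ℝ) ^ (-M))
    (u p q : ℕ → ℕ) (hu : Tendsto u atTop atTop) (hp : ∀ j, u j ≤ p j) (hq : ∀ j, u j ≤ q j) :
    ∃ C : ℝ, ∀ᶠ j : ℕ in atTop,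
      |(f (p j) - f (q j)) - (g (p j) - g (q j))| ≤ C * (u j : ℝ) ^ (-M) := by
  refine ⟨2 * |C|, ?_⟩
  have h1 : Tendsto p atTop atTop := tendsto_atTop_mono hp hu
  have h2 : Tendsto q atTop atTop := tendsto_atTop_mono hq hu
  filter_upwards [h1.eventually h, h2.eventually h, hu.eventually_ge_atTop 1] with j h3 h4 h5
  have hup : (0 : ℝ) < u j := by exact_mod_cast h5
  have key : ∀ m : ℕ, u j ≤ m → |f m - g m - ℓ| ≤ C * (m : ℝ) ^ (-M) →
      |f m - g m - ℓ| ≤ |C| * (u j : ℝ) ^ (-M) := by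
    intro m hm h6
    have h7 : (m : ℝ) ^ (-M) ≤ (u j : ℝ) ^ (-M) :=
      Real.rpow_le_rpow_of_nonpos hup (by exact_mod_cast hm) (by linarith)
    exact h6.trans ((mul_le_mul_of_nonneg_right (le_abs_self C) (by positivity)).trans
      (mul_le_mul_of_nonneg_left h7 (abs_nonneg C)))
  have h6 := key _ (hp j) h3
  have h7 := key _ (hq j) h4
  calc |(f (p j) - f (q j)) - (g (p j) - g (q j))|
      = |(f (p j) - g (p j) - ℓ) - (f (q j) - g (q j) - ℓ)| := by congr 1; ring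
    _ ≤ |f (p j) - g (p j) - ℓ| + |f (q j) - g (q j) - ℓ| := abs_sub _ _
    _ ≤ 2 * |C| * (u j : ℝ) ^ (-M) := by linarith

theorem classes {F : ℕ → ℝ} {t : ℝ} (ht : 0 ≤ t)
    (h : ∀ ρ : ℕ, ρ < 2 → ∃ C : ℝ, ∀ᶠ k : ℕ in atTop, |F (2 * k + ρ)| ≤ C * (k : ℝ) ^ (-t)) :
    ∃ C : ℝ, ∀ᶠ n : ℕ in atTop, |F n| ≤ C * (n : ℝ) ^ (-t) := by
  obtain ⟨C0, h0⟩ := h 0 (by norm_num)
  obtain ⟨C1, h1⟩ := h 1 (by norm_num)
  obtain ⟨N, hN⟩ := eventually_atTop.1 (h0.and h1)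
  refine ⟨(3 : ℝ) ^ t * (|C0| + |C1|), ?_⟩
  filter_upwards [eventually_ge_atTop (2 * N + 3)] with n hn
  have hk : 1 ≤ n / 2 := by omega
  have hkp : (0 : ℝ) < (n / 2 : ℕ) := by exact_mod_cast hk
  have hnp : (0 : ℝ) < n := by exact_mod_cast (by omega : 0 < n)
  have h3 : ((n / 2 : ℕ) : ℝ) ^ (-t) ≤ (3 : ℝ) ^ t * (n : ℝ) ^ (-t) := by
    have h4 : (n : ℝ) / 3 ≤ ((n / 2 : ℕ) : ℝ) := by
      have : n ≤ 3 * (n / 2) := by omega
      have : (n : ℝ) ≤ 3 * ((n / 2 : ℕ) : ℝ) := by exact_mod_cast this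
      linarith
    have h5 : ((n / 2 : ℕ) : ℝ) ^ (-t) ≤ ((n : ℝ) / 3) ^ (-t) :=
      Real.rpow_le_rpow_of_nonpos (by positivity) h4 (by linarith)
    refine h5.trans (le_of_eq ?_)
    rw [div_eq_mul_inv, Real.mul_rpow hnp.le (by positivity), Real.inv_rpow (by norm_num),
      Real.rpow_neg (by norm_num : (0 : ℝ) ≤ 3) t, inv_inv]
    ring
  have h6 : ∀ C : ℝ, |C| ≤ |C0| + |C1| → |F n| ≤ C * ((n / 2 : ℕ) : ℝ) ^ (-t) →
      |F n| ≤ (3 : ℝ) ^ t * (|C0| + |C1|) * (n : ℝ) ^ (-t) := by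
    intro C hC h7
    calc |F n| ≤ C * ((n / 2 : ℕ) : ℝ) ^ (-t) := h7
      _ ≤ |C| * ((n / 2 : ℕ) : ℝ) ^ (-t) :=
          mul_le_mul_of_nonneg_right (le_abs_self C) (by positivity)
      _ ≤ (|C0| + |C1|) * ((n / 2 : ℕ) : ℝ) ^ (-t) :=
          mul_le_mul_of_nonneg_right hC (by positivity)
      _ ≤ (|C0| + |C1|) * ((3 : ℝ) ^ t * (n : ℝ) ^ (-t)) :=
          mul_le_mul_of_nonneg_left h3 (by positivity)
      _ = _ := by ring
  have hNk : N ≤ n / 2 := by omega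
  rcases Nat.mod_two_eq_zero_or_one n with hm | hm
  · have e : 2 * (n / 2) + 0 = n := by omega
    have h8 := (hN _ hNk).1
    rw [e] at h8
    exact h6 C0 (by linarith [abs_nonneg C1]) h8
  · have e : 2 * (n / 2) + 1 = n := by omega
    have h8 := (hN _ hNk).2
    rw [e] at h8
    exact h6 C1 (by linarith [abs_nonneg C0]) h8

/-- differences of one class from differences of all terms -/
theorem class_of_all {F : ℕ → ℝ} {t C : ℝ} (ht : 0 ≤ t)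
    (h : ∀ᶠ n : ℕ in atTop, |F n| ≤ C * (n : ℝ) ^ (-t)) (ρ : ℕ) :
    ∃ C : ℝ, ∀ᶠ k : ℕ in atTop, |F (2 * k + ρ)| ≤ C * (k : ℝ) ^ (-t) := by
  refine ⟨|C|, ?_⟩
  have h1 : Tendsto (fun k : ℕ => 2 * k + ρ) atTop atTop :=
    tendsto_atTop_mono (fun k => (by omega : k ≤ 2 * k + ρ)) tendsto_id
  filter_upwards [h1.eventually h, eventually_ge_atTop 1] with k h2 h3
  have hkp : (0 : ℝ) < k := by exact_mod_cast h3
  have h4 : ((2 * k + ρ : ℕ) : ℝ) ^ (-t) ≤ (k : ℝ) ^ (-t) :=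
    Real.rpow_le_rpow_of_nonpos hkp (by exact_mod_cast (by omega : k ≤ 2 * k + ρ)) (by linarith)
  exact h2.trans ((mul_le_mul_of_nonneg_right (le_abs_self C) (by positivity)).trans
      (mul_le_mul_of_nonneg_left h4 (abs_nonneg C)))

section

variable {κ : ℝ} (hκ0 : 0 < κ) (hκ : κ ≤ 1) {f g : ℕ → ℝ}
  (hf : ∀ ρ : ℕ, Reg κ (fun k => f (2 * k + ρ))) (hg : ∀ ρ : ℕ, Reg κ (fun k => g (2 * k + ρ)))
  {a b : ℕ} (ha : 2 ≤ a) (hb : 2 ≤ b) (hab : Indep a b) {M : ℝ} (hM : 0 < M) (α : ℝ)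
  (hα0 : 0 ≤ α) (hα : α < κ)
  (v : ℕ → ℕ) (hv : Tendsto v atTop atTop)
  (hvgap : ∀ᶠ j : ℕ in atTop, (v (j + 1) : ℝ) ≤ v j + (v j : ℝ) ^ α)
  (w : ℕ → ℕ) (hw : Tendsto w atTop atTop)
  (hwgap : ∀ᶠ j : ℕ in atTop, (w (j + 1) : ℝ) ≤ w j + (w j : ℝ) ^ α)
  (u : ℕ → ℕ) (hu : Tendsto u atTop atTop)
  (hugap : ∀ᶠ j : ℕ in atTop, (u (j + 1) : ℝ) ≤ u j + (u j : ℝ) ^ α)

include hκ0 hκ hf hg ha hb hab hM hα0 hα hv hvgap hw hwgap hu hugap

theorem par_main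
    (hva : ∃ C : ℝ, ∀ᶠ j : ℕ in atTop,
      |(f (a * (2 * v j)) - f (2 * v j)) - (g (a * (2 * v j)) - g (2 * v j))| ≤
        C * (v j : ℝ) ^ (-M))
    (hwb : ∃ C : ℝ, ∀ᶠ j : ℕ in atTop,
      |(f (b * (2 * w j)) - f (2 * w j)) - (g (b * (2 * w j)) - g (2 * w j))| ≤
        C * (w j : ℝ) ^ (-M))
    (hu2 : ∃ C : ℝ, ∀ᶠ j : ℕ in atTop,
      |(f (2 * (2 * u j + 1)) - f (2 * u j + 1)) - (g (2 * (2 * u j + 1)) - g (2 * u j + 1))| ≤
        C * (u j : ℝ) ^ (-M)) :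
    ∃ ℓ : ℝ, ∀ (s : ℕ) (x : ℝ), 0 ≤ x → x < κ → ∃ C : ℝ, ∀ᶠ n : ℕ in atTop,
      |D2 s (fun n => f n - g n - ℓ) n| ≤ C * (n : ℝ) ^ (-(M + x * s)) := by
  have e0 : ∀ (h : ℕ → ℝ), (fun k => h (2 * k + 0)) = fun k => h (2 * k) := fun h => rfl
  have hswap : ∀ (c k : ℕ), c * (2 * k) = 2 * (c * k) := fun c k => by ring
  obtain ⟨ℓ, hℓ⟩ := main hκ0 hκ (f := fun k => f (2 * k)) (g := fun k => g (2 * k))
    (by have := hf 0; rwa [e0] at this) (by have := hg 0; rwa [e0] at this) ha hb hab hM α hα0 hα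
    v hv hvgap w hw hwgap
    (by
      obtain ⟨C, hC⟩ := hva
      refine ⟨C, hC.mono fun j hj => ?_⟩
      simp only [hswap] at hj
      exact hj)
    (by
      obtain ⟨C, hC⟩ := hwb
      refine ⟨C, hC.mono fun j hj => ?_⟩
      simp only [hswap] at hj
      exact hj)
  refine ⟨ℓ, ?_⟩
  -- the odd class
  have hodd : ∃ C : ℝ, ∀ᶠ j : ℕ in atTop,
      |f (2 * u j + 1) - (g (2 * u j + 1) + ℓ)| ≤ C * (u j : ℝ) ^ (-M) := by
    obtain ⟨C, hC⟩ := hℓ 0 0 le_rfl hκ0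
    obtain ⟨C', hC'⟩ := hu2
    refine ⟨|C| + C', ?_⟩
    have h1 : Tendsto (fun j => 2 * u j + 1) atTop atTop :=
      tendsto_atTop_mono (fun j => (by omega : u j ≤ 2 * u j + 1)) hu
    filter_upwards [h1.eventually hC, hC', hu.eventually_ge_atTop 1] with j h2 h3 h4
    rw [D_zero] at h2
    have hup : (0 : ℝ) < u j := by exact_mod_cast h4
    have h5 : ((2 * u j + 1 : ℕ) : ℝ) ^ (-(M + 0 * ((0 : ℕ) : ℝ))) ≤ (u j : ℝ) ^ (-M) := by
      have e : -(M + 0 * ((0 : ℕ) : ℝ)) = -M := by simp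
      rw [e]
      exact Real.rpow_le_rpow_of_nonpos hup (by exact_mod_cast (by omega : u j ≤ 2 * u j + 1))
        (by linarith)
    have h6 : |f (2 * (2 * u j + 1)) - g (2 * (2 * u j + 1)) - ℓ| ≤ |C| * (u j : ℝ) ^ (-M) :=
      h2.trans ((mul_le_mul_of_nonneg_right (le_abs_self C) (by positivity)).trans
        (mul_le_mul_of_nonneg_left h5 (abs_nonneg C)))
    calc |f (2 * u j + 1) - (g (2 * u j + 1) + ℓ)|
        = |(f (2 * (2 * u j + 1)) - g (2 * (2 * u j + 1)) - ℓ) -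
          ((f (2 * (2 * u j + 1)) - f (2 * u j + 1)) -
            (g (2 * (2 * u j + 1)) - g (2 * u j + 1)))| := by congr 1; ring
      _ ≤ |f (2 * (2 * u j + 1)) - g (2 * (2 * u j + 1)) - ℓ| +
          |(f (2 * (2 * u j + 1)) - f (2 * u j + 1)) -
            (g (2 * (2 * u j + 1)) - g (2 * u j + 1))| := abs_sub _ _
      _ ≤ (|C| + C') * (u j : ℝ) ^ (-M) := by linarith
  intro s x hx0 hx
  refine classes (by positivity) fun ρ hρ => ?_
  rcases (by omega : ρ = 0 ∨ ρ = 1) with rfl | rfl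
  · obtain ⟨C, hC⟩ := hℓ s x hx0 hx
    refine ⟨C, hC.mono fun k hk => ?_⟩
    rw [D2_eq]
    exact hk
  · have hg' : Reg κ (fun k => (fun n => g n + ℓ) (2 * k + 1)) := by
      have := (hg 1).sub (reg_const κ (-ℓ))
      simpa using this
    obtain ⟨C, hC⟩ := main_two hκ 1 (hf 1) (g := fun n => g n + ℓ) hg' M α hM.le hα0 hα u hu hugap
      hodd s x hx0 hx
    refine ⟨C, hC.mono fun k hk => ?_⟩
    have e : (fun n => f n - g n - ℓ) = fun n => f n - (g n + ℓ) := by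
      funext n; ring
    rw [e]
    exact hk

end

/-- the criterion with a general comparison sequence -/
theorem par_form_iff {κ : ℝ} (hκ0 : 0 < κ) (hκ : κ ≤ 1) {X g : ℕ → ℝ}
    (hX : ∀ᶠ n in atTop, 0 < X n)
    (hf : ∀ ρ : ℕ, Reg κ (fun k => Real.log (X (2 * k + ρ))))
    (hg : ∀ ρ : ℕ, Reg κ (fun k => g (2 * k + ρ)))
    {a b : ℕ} (ha : 2 ≤ a) (hb : 2 ≤ b) (hab : Indep a b) {M : ℝ} (hM : 0 < M) (α : ℝ)
    (hα0 : 0 ≤ α) (hα : α < κ)
    (v : ℕ → ℕ) (hv : Tendsto v atTop atTop)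
    (hvgap : ∀ᶠ j : ℕ in atTop, (v (j + 1) : ℝ) ≤ v j + (v j : ℝ) ^ α)
    (w : ℕ → ℕ) (hw : Tendsto w atTop atTop)
    (hwgap : ∀ᶠ j : ℕ in atTop, (w (j + 1) : ℝ) ≤ w j + (w j : ℝ) ^ α)
    (u : ℕ → ℕ) (hu : Tendsto u atTop atTop)
    (hugap : ∀ᶠ j : ℕ in atTop, (u (j + 1) : ℝ) ≤ u j + (u j : ℝ) ^ α) :
    ((∃ C : ℝ, ∀ᶠ j : ℕ in atTop,
        |Real.log (X (a * (2 * v j)) / X (2 * v j)) - (g (a * (2 * v j)) - g (2 * v j))| ≤
          C * (v j : ℝ) ^ (-M)) ∧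
      (∃ C : ℝ, ∀ᶠ j : ℕ in atTop,
        |Real.log (X (b * (2 * w j)) / X (2 * w j)) - (g (b * (2 * w j)) - g (2 * w j))| ≤
          C * (w j : ℝ) ^ (-M)) ∧
      ∃ C : ℝ, ∀ᶠ j : ℕ in atTop,
        |Real.log (X (2 * (2 * u j + 1)) / X (2 * u j + 1)) -
          (g (2 * (2 * u j + 1)) - g (2 * u j + 1))| ≤ C * (u j : ℝ) ^ (-M)) ↔
    ∃ c₀ : ℝ, 0 < c₀ ∧ ∀ (s : ℕ) (x : ℝ), 0 ≤ x → x < κ → ∃ C : ℝ, ∀ᶠ n : ℕ in atTop,
      |D2 s (fun n => Real.log (X n) - Real.log c₀ - g n) n| ≤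
        C * (n : ℝ) ^ (-(M + x * s)) := by
  have hlog : ∀ (t p q : ℕ → ℕ), Tendsto t atTop atTop → (∀ j, t j ≤ p j) → (∀ j, t j ≤ q j) →
      ∀ᶠ j : ℕ in atTop, Real.log (X (p j) / X (q j)) =
        Real.log (X (p j)) - Real.log (X (q j)) := by
    intro t p q ht hp hq
    filter_upwards [(tendsto_atTop_mono hp ht).eventually hX,
      (tendsto_atTop_mono hq ht).eventually hX] with j h3 h4
    rw [Real.log_div h3.ne' h4.ne']
  have hla := hlog v (fun j => a * (2 * v j)) (fun j => 2 * v j) hv (fun j => by nlinarith)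
    (fun j => by omega)
  have hlb := hlog w (fun j => b * (2 * w j)) (fun j => 2 * w j) hw (fun j => by nlinarith)
    (fun j => by omega)
  have hlu := hlog u (fun j => 2 * (2 * u j + 1)) (fun j => 2 * u j + 1) hu (fun j => by omega)
    (fun j => by omega)
  constructor
  · rintro ⟨⟨C1, h1⟩, ⟨C2, h2⟩, ⟨C3, h3⟩⟩
    obtain ⟨ℓ, hℓ⟩ := par_main hκ0 hκ (f := fun n => Real.log (X n)) hf hg ha hb hab hM α hα0 hα
      v hv hvgap w hw hwgap u hu hugap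
      (by
        refine ⟨C1, ?_⟩
        filter_upwards [h1, hla] with j h4 h5
        rw [h5] at h4
        exact h4)
      (by
        refine ⟨C2, ?_⟩
        filter_upwards [h2, hlb] with j h4 h5
        rw [h5] at h4
        exact h4)
      (by
        refine ⟨C3, ?_⟩
        filter_upwards [h3, hlu] with j h4 h5
        rw [h5] at h4
        exact h4)
    refine ⟨Real.exp ℓ, Real.exp_pos ℓ, fun s x hx0 hx => ?_⟩
    obtain ⟨C, hC⟩ := hℓ s x hx0 hx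
    refine ⟨C, hC.mono fun n hn => ?_⟩
    have e : (fun n => Real.log (X n) - Real.log (Real.exp ℓ) - g n) =
        fun n => Real.log (X n) - g n - ℓ := by
      funext n
      rw [Real.log_exp]
      ring
    rw [e]
    exact hn
  · rintro ⟨c₀, hc₀, h⟩
    obtain ⟨C, hC⟩ := h 0 0 le_rfl hκ0
    have h1 : ∀ᶠ n : ℕ in atTop,
        |Real.log (X n) - g n - Real.log c₀| ≤ C * (n : ℝ) ^ (-M) := by
      filter_upwards [hC] with n hn
      have e : D2 0 (fun n => Real.log (X n) - Real.log c₀ - g n) n =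
          Real.log (X n) - g n - Real.log c₀ := by
        simp [D2]
        ring
      rw [e] at hn
      refine hn.trans (le_of_eq ?_)
      congr 2
      simp
    have key : ∀ (t p q : ℕ → ℕ), Tendsto t atTop atTop → (∀ j, t j ≤ p j) → (∀ j, t j ≤ q j) →
        ∃ C : ℝ, ∀ᶠ j : ℕ in atTop,
          |Real.log (X (p j) / X (q j)) - (g (p j) - g (q j))| ≤ C * (t j : ℝ) ^ (-M) := by
      intro t p q ht hp hq
      obtain ⟨C', h2⟩ := conv_pair hM.le h1 t p q ht hp hq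
      refine ⟨C', ?_⟩
      filter_upwards [h2, hlog t p q ht hp hq] with j h3 h4
      rw [h4]
      exact h3
    exact ⟨key v (fun j => a * (2 * v j)) (fun j => 2 * v j) hv (fun j => by nlinarith)
        (fun j => by omega),
      key w (fun j => b * (2 * w j)) (fun j => 2 * w j) hw (fun j => by nlinarith)
        (fun j => by omega),
      key u (fun j => 2 * (2 * u j + 1)) (fun j => 2 * u j + 1) hu (fun j => by omega)
        (fun j => by omega)⟩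

end Pool.Agent.U17.TS
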