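import Pool.Agent.U17.TS.Par

/-!
# Two scales for sequences which are regular in both parity classes: pure powers
-/

set_option autoImplicit false

namespace Pool.Agent.U17.TS

open Finset Filter Topology Pool.Agent.N226.SX

theorem reg_log2 (κ : ℝ) (hκ : κ ≤ 1) (θ : ℝ) (ρ : ℕ) :
    Reg κ (fun k : ℕ => (fun n : ℕ => θ * Real.log n) (2 * k + ρ)) := by
  have h := reg_G2 κ hκ ρ 0 θ (fun i => i.elim0) (fun i => i.elim0) (fun i => i.elim0)
  refine fun a h0 h1 r hr => ?_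
  obtain ⟨C, hC⟩ := h a h0 h1 r hr
  refine ⟨C, hC.mono fun n hn => ?_⟩
  refine le_trans (le_of_eq ?_) hn
  congr 1
  refine D_congr _ _ _ _ fun i _ => ?_
  unfold G
  simp

theorem conv_gen {X : ℕ → ℝ} (hX : ∀ᶠ n in atTop, 0 < X n) {M : ℝ} (hM : 0 < M) (θ : ℝ)
    {c : ℕ} (hc : 1 ≤ c) (t q : ℕ → ℕ) (ht : Tendsto t atTop atTop) (hq : ∀ j, t j ≤ q j) :
      ((∃ C : ℝ, ∀ᶠ j : ℕ in atTop,
        |X (c * q j) / X (q j) - (c : ℝ) ^ θ| ≤ C * (t j : ℝ) ^ (-M)) ↔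
      ∃ C : ℝ, ∀ᶠ j : ℕ in atTop,
        |Real.log (X (c * q j) / X (q j)) - (θ * Real.log ((c * q j : ℕ) : ℝ) -
          θ * Real.log ((q j : ℕ) : ℝ))| ≤ C * (t j : ℝ) ^ (-M)) := by
  have hc0 : (0 : ℝ) < c := by exact_mod_cast hc
  have hy : (0 : ℝ) < (c : ℝ) ^ θ := by positivity
  have hqt : Tendsto q atTop atTop := tendsto_atTop_mono hq ht
  have h2 : Tendsto (fun j : ℕ => c * q j) atTop atTop :=
    tendsto_atTop_mono (fun j => Nat.le_mul_of_pos_left _ (by omega)) hqt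
  have hpos : ∀ᶠ j : ℕ in atTop, 0 < X (c * q j) / X (q j) := by
    filter_upwards [hqt.eventually hX, h2.eventually hX] with j h3 h4
    exact div_pos h4 h3
  have hε := rpow_neg_tendsto ht hM
  constructor
  · intro h
    obtain ⟨C, hC⟩ := log_close hy hε h (Eventually.of_forall fun j => by positivity)
    refine ⟨C, ?_⟩
    filter_upwards [hC, hqt.eventually_ge_atTop 1] with j h3 h4
    rw [log_scale hc h4]
    exact h3
  · rintro ⟨C, hC⟩
    refine close_log hy hpos hε ⟨C, ?_⟩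
    filter_upwards [hC, hqt.eventually_ge_atTop 1] with j h3 h4
    rw [log_scale hc h4] at h3
    exact h3

/-- the criterion for pure powers -/
theorem par_ratio_iff {κ : ℝ} (hκ0 : 0 < κ) (hκ : κ ≤ 1) {X : ℕ → ℝ}
    (hX : ∀ᶠ n in atTop, 0 < X n)
    (hf : ∀ ρ : ℕ, Reg κ (fun k => Real.log (X (2 * k + ρ))))
    {a b : ℕ} (ha : 2 ≤ a) (hb : 2 ≤ b) (hab : Indep a b) {M : ℝ} (hM : 0 < M) (α : ℝ)
    (hα0 : 0 ≤ α) (hα : α < κ)
    (v : ℕ → ℕ) (hv : Tendsto v atTop atTop)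
    (hvgap : ∀ᶠ j : ℕ in atTop, (v (j + 1) : ℝ) ≤ v j + (v j : ℝ) ^ α)
    (w : ℕ → ℕ) (hw : Tendsto w atTop atTop)
    (hwgap : ∀ᶠ j : ℕ in atTop, (w (j + 1) : ℝ) ≤ w j + (w j : ℝ) ^ α)
    (u : ℕ → ℕ) (hu : Tendsto u atTop atTop)
    (hugap : ∀ᶠ j : ℕ in atTop, (u (j + 1) : ℝ) ≤ u j + (u j : ℝ) ^ α) (θ : ℝ) :
    ((∃ C : ℝ, ∀ᶠ j : ℕ in atTop,
        |X (a * (2 * v j)) / X (2 * v j) - (a : ℝ) ^ θ| ≤ C * (v j : ℝ) ^ (-M)) ∧
      (∃ C : ℝ, ∀ᶠ j : ℕ in atTop,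
        |X (b * (2 * w j)) / X (2 * w j) - (b : ℝ) ^ θ| ≤ C * (w j : ℝ) ^ (-M)) ∧
      ∃ C : ℝ, ∀ᶠ j : ℕ in atTop,
        |X (2 * (2 * u j + 1)) / X (2 * u j + 1) - (2 : ℝ) ^ θ| ≤ C * (u j : ℝ) ^ (-M)) ↔
    ∃ c₀ : ℝ, 0 < c₀ ∧ ∃ C : ℝ, ∀ᶠ n : ℕ in atTop,
      |X n / (n : ℝ) ^ θ - c₀| ≤ C * (n : ℝ) ^ (-M) := by
  have hmain := par_form_iff hκ0 hκ hX hf (g := fun n : ℕ => θ * Real.log n) (reg_log2 κ hκ θ)
    ha hb hab hM α hα0 hα v hv hvgap w hw hwgap u hu hugap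
  have c1 := conv_gen hX hM θ (by omega : 1 ≤ a) v (fun j => 2 * v j) hv (fun j => by omega)
  have c2 := conv_gen hX hM θ (by omega : 1 ≤ b) w (fun j => 2 * w j) hw (fun j => by omega)
  have c3 := conv_gen hX hM θ (by omega : 1 ≤ 2) u (fun j => 2 * u j + 1) hu (fun j => by omega)
  have e2 : (((2 : ℕ) : ℝ)) = 2 := by norm_num
  rw [e2] at c3
  rw [c1, c2, c3, hmain]
  have hε : Tendsto (fun n : ℕ => (n : ℝ) ^ (-M)) atTop (𝓝 0) := rpow_neg_tendsto tendsto_id hM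
  have hXn : ∀ᶠ n : ℕ in atTop, 0 < X n / (n : ℝ) ^ θ := by
    filter_upwards [hX, eventually_ge_atTop 1] with n h1 h2
    have : (0 : ℝ) < n := by exact_mod_cast h2
    positivity
  have hl : ∀ᶠ n : ℕ in atTop, Real.log (X n / (n : ℝ) ^ θ) =
      Real.log (X n) - θ * Real.log n := by
    filter_upwards [hX, eventually_ge_atTop 1] with n h1 h2
    have h3 : (0 : ℝ) < n := by exact_mod_cast h2
    rw [Real.log_div h1.ne' (by positivity), Real.log_rpow h3]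
  constructor
  · rintro ⟨c₀, hc₀, h⟩
    refine ⟨c₀, hc₀, ?_⟩
    obtain ⟨C, hC⟩ := h 0 0 le_rfl hκ0
    refine close_log hc₀ hXn hε ⟨C, ?_⟩
    filter_upwards [hC, hl] with n hn h2
    have e : D2 0 (fun n : ℕ => Real.log (X n) - Real.log c₀ - θ * Real.log n) n =
        Real.log (X n) - Real.log c₀ - θ * Real.log n := by
      simp [D2]
    rw [e] at hn
    rw [h2]
    refine le_trans (le_of_eq ?_) (hn.trans (le_of_eq ?_))
    · congr 1; ring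
    · congr 2; simp
  · rintro ⟨c₀, hc₀, h⟩
    refine ⟨c₀, hc₀, fun s x hx0 hx => ?_⟩
    obtain ⟨C, hC⟩ := log_close hc₀ hε h (Eventually.of_forall fun j => by positivity)
    refine classes (by positivity) fun ρ _ => ?_
    have h2 : Reg κ (fun k : ℕ => (fun n : ℕ => Real.log (X n) - Real.log c₀ - θ * Real.log n)
        (2 * k + ρ)) :=
      ((hf ρ).sub (reg_const κ _)).sub (reg_log2 κ hκ θ ρ)
    have h3 : Bd (fun k : ℕ => (fun n : ℕ => Real.log (X n) - Real.log c₀ - θ * Real.log n)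
        (2 * k + ρ)) 0 M := by
      have h4 : ∀ᶠ n : ℕ in atTop, |(fun n : ℕ => Real.log (X n) - Real.log c₀ -
          θ * Real.log n) n| ≤ C * (n : ℝ) ^ (-M) := by
        filter_upwards [hC, hl] with n hn h5
        rw [h5] at hn
        refine le_trans (le_of_eq ?_) hn
        congr 1; ring
      obtain ⟨C', hC'⟩ := class_of_all hM.le h4 ρ
      refine ⟨C', hC'.mono fun k hk => ?_⟩
      rw [D_zero]
      exact hk
    obtain ⟨C', hC'⟩ := Bd.differences h2 hM.le hx0 hx h3 s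
    refine ⟨C', hC'.mono fun k hk => ?_⟩
    rw [D2_eq]
    exact hk

end Pool.Agent.U17.TS
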