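import Pool.Agent.U17.TS.Two
import Pool.Agent.N226.SX.One

/-!
# Expansions of a sequence from its ratios at two scales
-/

set_option autoImplicit false

namespace Pool.Agent.U17.TS

open Finset Filter Topology Pool.Agent.N226.SX

theorem D_diff (a r : ℕ) (f : ℕ → ℝ) (m : ℕ) :
    D r (fun n => f n - f (n + a)) m = ∑ i ∈ range a, D (r + 1) f (m + i) := by
  induction a with
  | zero => simp [D]
  | succ a ih =>
    rw [Finset.sum_range_succ, ← ih]
    have e1 : D (r + 1) f (m + a) = D r (fun n => f (n + a) - f (n + (a + 1))) m := by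
      rw [D_succ']
      unfold D
      refine Finset.sum_congr rfl fun i _ => ?_
      simp only
      rw [show m + a + i = m + i + a by ring, show m + i + a + 1 = m + i + (a + 1) by ring]
    rw [e1, ← D_add]
    refine D_congr _ _ _ _ fun i _ => ?_
    ring

theorem T_le (a : ℕ) : ∀ (r : ℕ) (f : ℕ → ℝ) (N : ℕ) (B : ℝ),
    (∀ m, N ≤ m → m ≤ N + r * a → |D r f m| ≤ B) → |T a r f N| ≤ (a : ℝ) ^ r * B := by
  intro r
  induction r with
  | zero =>
    intro f N B h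
    have := h N le_rfl (by omega)
    rw [D_zero] at this
    simpa [T] using this
  | succ r ih =>
    intro f N B h
    have e : T a (r + 1) f N = T a r (fun n => f n - f (n + a)) N := rfl
    rw [e]
    have h1 := ih (fun n => f n - f (n + a)) N (a * B) (by
      intro m hm1 hm2
      rw [D_diff]
      calc |∑ i ∈ range a, D (r + 1) f (m + i)| ≤ ∑ i ∈ range a, |D (r + 1) f (m + i)| :=
            Finset.abs_sum_le_sum_abs _ _
        _ ≤ ∑ _i ∈ range a, B := by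
            refine Finset.sum_le_sum fun i hi => h _ (by omega) ?_
            have := Finset.mem_range.1 hi
            rw [Nat.add_mul, one_mul]
            omega
        _ = a * B := by rw [Finset.sum_const, Finset.card_range, nsmul_eq_mul])
    calc _ ≤ (a : ℝ) ^ r * (a * B) := h1
      _ = (a : ℝ) ^ (r + 1) * B := by ring

theorem D_scale (a : ℕ) : ∀ (r : ℕ) (f : ℕ → ℝ) (k : ℕ),
    D r (fun k => f (a * k)) k = T a r f (a * k) := by
  intro r
  induction r with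
  | zero => intro f k; rw [D_zero]; rfl
  | succ r ih =>
    intro f k
    rw [D_succ']
    exact ih (fun n => f n - f (n + a)) k

/-- regularity is inherited by the terms with indices divisible by `a` -/
theorem reg_scale {κ : ℝ} {f : ℕ → ℝ} (h : Reg κ f) {a : ℕ} (ha : 1 ≤ a) :
    Reg κ (fun k => f (a * k)) := by
  intro x hx0 hx r hr
  obtain ⟨C, hC⟩ := h x hx0 hx r hr
  obtain ⟨N, hN⟩ := eventually_atTop.1 hC
  refine ⟨(a : ℝ) ^ r * |C|, ?_⟩
  filter_upwards [eventually_ge_atTop (max N 1)] with k hk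
  have hk1 : 1 ≤ k := (le_max_right _ _).trans hk
  have hkN : N ≤ k := (le_max_left _ _).trans hk
  have hkp : (0 : ℝ) < k := by exact_mod_cast hk1
  have hka : k ≤ a * k := Nat.le_mul_of_pos_left _ ha
  rw [D_scale]
  have h1 := T_le a r f (a * k) (|C| * (k : ℝ) ^ (-(x * r))) (by
    intro m hm _
    have h3 := hN m (hkN.trans (hka.trans hm))
    refine h3.trans ?_
    have h4 : (m : ℝ) ^ (-(x * r)) ≤ (k : ℝ) ^ (-(x * r)) :=
      Real.rpow_le_rpow_of_nonpos hkp (by exact_mod_cast hka.trans hm) (by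
        have : 0 ≤ x * r := by positivity
        linarith)
    calc C * (m : ℝ) ^ (-(x * r)) ≤ |C| * (m : ℝ) ^ (-(x * r)) :=
          mul_le_mul_of_nonneg_right (le_abs_self C) (by positivity)
      _ ≤ |C| * (k : ℝ) ^ (-(x * r)) := mul_le_mul_of_nonneg_left h4 (abs_nonneg C))
  rw [← mul_assoc] at h1
  exact h1

theorem reg_const (κ ℓ : ℝ) : Reg κ (fun _ => ℓ) := by
  intro a _ _ r hr
  obtain ⟨r, rfl⟩ : ∃ s, r = s + 1 := ⟨r - 1, by omega⟩
  refine ⟨0, Eventually.of_forall fun n => ?_⟩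
  rw [D_const]
  simp

/-- **Expansions from two scales, along sparse lengths.** -/
theorem main {κ : ℝ} (hκ0 : 0 < κ) (hκ : κ ≤ 1) {f g : ℕ → ℝ} (hf : Reg κ f) (hg : Reg κ g)
    {a b : ℕ} (ha : 2 ≤ a) (hb : 2 ≤ b) (hab : Indep a b) {M : ℝ} (hM : 0 < M) (α : ℝ)
    (hα0 : 0 ≤ α) (hα : α < κ)
    (v : ℕ → ℕ) (hv : Tendsto v atTop atTop)
    (hvgap : ∀ᶠ j : ℕ in atTop, (v (j + 1) : ℝ) ≤ v j + (v j : ℝ) ^ α)
    (w : ℕ → ℕ) (hw : Tendsto w atTop atTop)
    (hwgap : ∀ᶠ j : ℕ in atTop, (w (j + 1) : ℝ) ≤ w j + (w j : ℝ) ^ α)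
    (hva : ∃ C : ℝ, ∀ᶠ j : ℕ in atTop,
      |(f (a * v j) - f (v j)) - (g (a * v j) - g (v j))| ≤ C * (v j : ℝ) ^ (-M))
    (hwb : ∃ C : ℝ, ∀ᶠ j : ℕ in atTop,
      |(f (b * w j) - f (w j)) - (g (b * w j) - g (w j))| ≤ C * (w j : ℝ) ^ (-M)) :
    ∃ ℓ : ℝ, ∀ (s : ℕ) (x : ℝ), 0 ≤ x → x < κ → ∃ C : ℝ, ∀ᶠ k : ℕ in atTop,
      |D s (fun n => f n - g n - ℓ) k| ≤ C * (k : ℝ) ^ (-(M + x * s)) := by
  set h : ℕ → ℝ := fun n => f n - g n with hh
  have hreg : Reg κ h := hf.sub hg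
  have key : ∀ {c : ℕ}, 2 ≤ c → ∀ (u : ℕ → ℕ), Tendsto u atTop atTop →
      (∀ᶠ j : ℕ in atTop, (u (j + 1) : ℝ) ≤ u j + (u j : ℝ) ^ α) →
      (∃ C : ℝ, ∀ᶠ j : ℕ in atTop,
        |(f (c * u j) - f (u j)) - (g (c * u j) - g (u j))| ≤ C * (u j : ℝ) ^ (-M)) →
      ∃ C : ℝ, ∀ᶠ n : ℕ in atTop, |h (c * n) - h n| ≤ C * (n : ℝ) ^ (-M) := by
    intro c hc u hu hgap hval
    have h1 : Reg κ (fun n => h (c * n) - h n) := (reg_scale hreg (by omega)).sub hreg
    have h2 := sparse h1 hκ hM.le hα0 hα u hu hgap (by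
      obtain ⟨C, hC⟩ := hval
      refine ⟨C, hC.mono fun j hj => ?_⟩
      refine le_trans (le_of_eq ?_) hj
      simp only [hh]
      congr 1
      ring) 0 0 le_rfl hκ0
    obtain ⟨C, hC⟩ := h2
    refine ⟨C, hC.mono fun n hn => ?_⟩
    rw [D_zero] at hn
    simpa using hn
  have h1 : ∃ C : ℝ, ∀ᶠ n : ℕ in atTop, |h (n + 1) - h n| ≤ C * (n : ℝ) ^ (-(κ / 2)) := by
    obtain ⟨C, hC⟩ := hreg (κ / 2) (by linarith) (by linarith) 1 le_rfl
    refine ⟨C, hC.mono fun n hn => ?_⟩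
    rw [D_succ, D_zero, D_zero, abs_sub_comm] at hn
    simpa using hn
  obtain ⟨ℓ, C, hℓ⟩ := two_scales ha hb hab (by linarith : 0 < κ / 2) hM h1
    (key ha v hv hvgap hva) (key hb w hw hwgap hwb)
  refine ⟨ℓ, fun s x hx0 hx => ?_⟩
  have h2 : Reg κ (fun n => h n - ℓ) := hreg.sub (reg_const κ ℓ)
  have h3 : Bd (fun n => h n - ℓ) 0 M := ⟨C, hℓ.mono fun n hn => by rw [D_zero]; exact hn⟩
  exact Bd.differences h2 hM.le hx0 hx h3 s

/-- the converse -/
theorem converse {f g : ℕ → ℝ} {M ℓ C : ℝ} (hM : 0 ≤ M)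
    (h : ∀ᶠ n : ℕ in atTop, |f n - g n - ℓ| ≤ C * (n : ℝ) ^ (-M)) {a : ℕ} (ha : 1 ≤ a)
    (v : ℕ → ℕ) (hv : Tendsto v atTop atTop) :
    ∃ C : ℝ, ∀ᶠ j : ℕ in atTop,
      |(f (a * v j) - f (v j)) - (g (a * v j) - g (v j))| ≤ C * (v j : ℝ) ^ (-M) := by
  refine ⟨2 * |C|, ?_⟩
  have h2 : Tendsto (fun j : ℕ => a * v j) atTop atTop :=
    tendsto_atTop_mono (fun j => Nat.le_mul_of_pos_left _ ha) hv
  filter_upwards [hv.eventually h, h2.eventually h, hv.eventually_ge_atTop 1] with j h3 h4 h5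
  have hp : (0 : ℝ) < v j := by exact_mod_cast h5
  have h6 : ((a * v j : ℕ) : ℝ) ^ (-M) ≤ (v j : ℝ) ^ (-M) :=
    Real.rpow_le_rpow_of_nonpos hp (by exact_mod_cast Nat.le_mul_of_pos_left _ ha) (by linarith)
  have h7 : |f (a * v j) - g (a * v j) - ℓ| ≤ |C| * (v j : ℝ) ^ (-M) :=
    h4.trans ((mul_le_mul_of_nonneg_right (le_abs_self C) (by positivity)).trans
      (mul_le_mul_of_nonneg_left h6 (abs_nonneg C)))
  have h8 : |f (v j) - g (v j) - ℓ| ≤ |C| * (v j : ℝ) ^ (-M) :=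
    h3.trans (mul_le_mul_of_nonneg_right (le_abs_self C) (by positivity))
  calc |(f (a * v j) - f (v j)) - (g (a * v j) - g (v j))|
      = |(f (a * v j) - g (a * v j) - ℓ) - (f (v j) - g (v j) - ℓ)| := by congr 1; ring
    _ ≤ |f (a * v j) - g (a * v j) - ℓ| + |f (v j) - g (v j) - ℓ| := abs_sub _ _
    _ ≤ 2 * |C| * (v j : ℝ) ^ (-M) := by linarith

/-! ### logarithms and ratios -/

theorem abs_log_le {t : ℝ} (ht : 1 / 2 ≤ t) : |Real.log t| ≤ 2 * |t - 1| := by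
  have h0 : 0 < t := by linarith
  have h1 := Real.log_le_sub_one_of_pos h0
  have h2 := Real.one_sub_inv_le_log_of_pos h0
  rw [abs_le]
  constructor
  · have h3 : -(2 * |t - 1|) ≤ 1 - t⁻¹ := by
      have h4 : 1 - t⁻¹ = (t - 1) * t⁻¹ := by field_simp
      rw [h4]
      have h5 : t⁻¹ ≤ 2 := by
        rw [inv_le_comm₀ h0 (by norm_num)]
        linarith
      have h6 : |(t - 1) * t⁻¹| ≤ 2 * |t - 1| := by
        rw [abs_mul, abs_of_pos (by positivity : 0 < t⁻¹), mul_comm]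
        exact mul_le_mul_of_nonneg_right h5 (abs_nonneg _)
      exact (neg_le_neg h6).trans (neg_abs_le _)
    linarith
  · have := le_abs_self (t - 1)
    have h3 := abs_nonneg (t - 1)
    linarith

/-- close numbers have close logarithms -/
theorem log_close {ι : Type} {F : Filter ι} {x ε : ι → ℝ} {y : ℝ} (hy : 0 < y)
    (hε : Tendsto ε F (𝓝 0)) (h : ∃ C : ℝ, ∀ᶠ j in F, |x j - y| ≤ C * ε j)
    (hε0 : ∀ᶠ j in F, 0 ≤ ε j) :
    ∃ C : ℝ, ∀ᶠ j in F, |Real.log (x j) - Real.log y| ≤ C * ε j := by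
  obtain ⟨C, hC⟩ := h
  have h1 : Tendsto (fun j => C * ε j) F (𝓝 0) := by simpa using hε.const_mul C
  refine ⟨2 / y * |C|, ?_⟩
  filter_upwards [hC, h1.eventually (gt_mem_nhds (by positivity : (0 : ℝ) < y / 2)), hε0] with j
    h2 h3 h4
  have h5 : |x j - y| < y / 2 := lt_of_le_of_lt h2 h3
  have h6 : y / 2 < x j := by
    have := neg_abs_le (x j - y)
    linarith
  have hx : 0 < x j := by linarith
  have h7 : 1 / 2 ≤ x j / y := by
    rw [le_div_iff₀ hy]; linarith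
  rw [← Real.log_div hx.ne' hy.ne']
  refine (abs_log_le h7).trans ?_
  have h8 : |x j / y - 1| = |x j - y| / y := by
    rw [← abs_of_pos hy, ← abs_div, abs_of_pos hy]
    congr 1
    field_simp
  rw [h8]
  calc 2 * (|x j - y| / y) = 2 / y * |x j - y| := by ring
    _ ≤ 2 / y * (|C| * ε j) := mul_le_mul_of_nonneg_left (h2.trans
        (mul_le_mul_of_nonneg_right (le_abs_self C) h4)) (by positivity)
    _ = _ := by ring

/-- close logarithms: close numbers -/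
theorem close_log {ι : Type} {F : Filter ι} {x ε : ι → ℝ} {y : ℝ} (hy : 0 < y)
    (hx : ∀ᶠ j in F, 0 < x j)
    (hε : Tendsto ε F (𝓝 0)) (h : ∃ C : ℝ, ∀ᶠ j in F, |Real.log (x j) - Real.log y| ≤ C * ε j) :
    ∃ C : ℝ, ∀ᶠ j in F, |x j - y| ≤ C * ε j := by
  obtain ⟨C, hC⟩ := h
  have h1 : Tendsto (fun j => C * ε j) F (𝓝 0) := by simpa using hε.const_mul C
  refine ⟨2 * y * C, ?_⟩
  filter_upwards [hC, h1.eventually (gt_mem_nhds (zero_lt_one)), hx] with j h2 h3 h4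
  have h5 : |Real.log (x j) - Real.log y| ≤ 1 := (lt_of_le_of_lt h2 h3).le
  have h6 := Real.abs_exp_sub_one_le h5
  have h7 : Real.exp (Real.log (x j) - Real.log y) = x j / y := by
    rw [Real.exp_sub, Real.exp_log h4, Real.exp_log hy]
  rw [h7] at h6
  have h8 : |x j - y| = y * |x j / y - 1| := by
    rw [← abs_of_pos hy, ← abs_mul, abs_of_pos hy]
    congr 1
    field_simp
  rw [h8]
  calc y * |x j / y - 1| ≤ y * (2 * |Real.log (x j) - Real.log y|) :=
        mul_le_mul_of_nonneg_left h6 hy.le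
    _ ≤ y * (2 * (C * ε j)) := by gcongr
    _ = _ := by ring

end Pool.Agent.U17.TS
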