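import Mathlib

/-!
# Sequences which are asymptotically invariant under two scales
-/

set_option autoImplicit false

namespace Pool.Agent.U17.TS

open Finset Filter Topology

/-- no power of `a` is a power of `b` -/
def Indep (a b : ℕ) : Prop := ∀ i j : ℕ, 0 < i → 0 < j → a ^ i ≠ b ^ j

theorem Indep.irrational {a b : ℕ} (ha : 2 ≤ a) (hb : 2 ≤ b) (h : Indep a b) :
    Irrational (Real.log a / Real.log b) := by
  rintro ⟨x, hx⟩
  have hla : 0 < Real.log a := Real.log_pos (by exact_mod_cast (by omega : 1 < a))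
  have hlb : 0 < Real.log b := Real.log_pos (by exact_mod_cast (by omega : 1 < b))
  have hx0 : (0 : ℝ) < x := by rw [hx]; positivity
  have hx1 : 0 < x := by exact_mod_cast hx0
  have hnum : 0 < x.num := Rat.num_pos.2 hx1
  obtain ⟨p, hp⟩ : ∃ p : ℕ, x.num = p := ⟨x.num.toNat, (Int.toNat_of_nonneg hnum.le).symm⟩
  have hp0 : 0 < p := by omega
  have hq0 : 0 < x.den := x.den_pos
  have h1 : (x : ℝ) = p / x.den := by
    rw [Rat.cast_def, hp]
    simp
  have h2 : (x.den : ℝ) * Real.log a = p * Real.log b := by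
    have hq : (x.den : ℝ) ≠ 0 := by positivity
    have h3 : Real.log a = x * Real.log b := by
      rw [hx]; field_simp
    rw [h3, h1]
    field_simp
  rw [← Real.log_pow, ← Real.log_pow] at h2
  have h4 := Real.log_injOn_pos (Set.mem_Ioi.2 (by positivity)) (Set.mem_Ioi.2 (by positivity)) h2
  exact h x.den p hq0 hp0 (by exact_mod_cast h4)

/-- approximation by the two scales -/
theorem approx {a b : ℕ} (ha : 2 ≤ a) (hb : 2 ≤ b) (h : Indep a b) {m n : ℕ} (hm : 1 ≤ m)
    (hn : 1 ≤ n) (η : ℝ) (hη : 0 < η) : ∃ i i' j j' : ℕ,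
      |Real.log ((a ^ i * (b ^ j * m) : ℕ) : ℝ) - Real.log ((a ^ i' * (b ^ j' * n) : ℕ) : ℝ)| <
        η := by
  have hd := dense_addSubgroupClosure_pair_iff.2 (h.irrational ha hb)
  obtain ⟨y, hy, hyc⟩ := hd.exists_dist_lt (Real.log n - Real.log m) hη
  rw [SetLike.mem_coe, AddSubgroup.mem_closure_pair] at hy
  obtain ⟨u, v, rfl⟩ := hy
  refine ⟨u.toNat, (-u).toNat, v.toNat, (-v).toNat, ?_⟩
  have ha0 : (0 : ℝ) < a := by exact_mod_cast (by omega : 0 < a)
  have hb0 : (0 : ℝ) < b := by exact_mod_cast (by omega : 0 < b)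
  have hm0 : (0 : ℝ) < m := by exact_mod_cast hm
  have hn0 : (0 : ℝ) < n := by exact_mod_cast hn
  push_cast
  rw [Real.log_mul (by positivity) (by positivity), Real.log_mul (by positivity) (by positivity),
    Real.log_mul (by positivity) (by positivity), Real.log_mul (by positivity) (by positivity),
    Real.log_pow, Real.log_pow, Real.log_pow, Real.log_pow]
  have hu : ((u.toNat : ℕ) : ℝ) - (((-u).toNat : ℕ) : ℝ) = u := by
    have : ((u.toNat : ℕ) : ℤ) - (((-u).toNat : ℕ) : ℤ) = u := by omega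
    exact_mod_cast this
  have hv : ((v.toNat : ℕ) : ℝ) - (((-v).toNat : ℕ) : ℝ) = v := by
    have : ((v.toNat : ℕ) : ℤ) - (((-v).toNat : ℕ) : ℤ) = v := by omega
    exact_mod_cast this
  rw [Real.dist_eq, zsmul_eq_mul, zsmul_eq_mul] at hyc
  have e : (u.toNat : ℝ) * Real.log a + ((v.toNat : ℝ) * Real.log b + Real.log m) -
      (((-u).toNat : ℝ) * Real.log a + (((-v).toNat : ℝ) * Real.log b + Real.log n)) =
      -((Real.log n - Real.log m) - (u * Real.log a + v * Real.log b)) := by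
    rw [← hu, ← hv]
    ring
  rw [e, abs_neg]
  exact hyc

section inv

variable {a b : ℕ} {F : ℕ → ℝ} {C δ : ℝ} {N0 : ℕ}

/-- the first digits in base `a` determine the value up to a small error -/
theorem floor_bound (ha : 2 ≤ a) (hδ : 0 < δ) (hC : 0 ≤ C) (hN0 : 1 ≤ N0)
    (hFa : ∀ n, 1 ≤ n → F (a * n) = F n)
    (hF1 : ∀ n, N0 ≤ n → |F (n + 1) - F n| ≤ C * (n : ℝ) ^ (-δ)) :
    ∃ K : ℝ, 0 ≤ K ∧ ∀ k X : ℕ, N0 ≤ X / a ^ k →
      |F X - F (X / a ^ k)| ≤ K * ((X / a ^ k : ℕ) : ℝ) ^ (-δ) := by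
  set s : ℝ := (a : ℝ) ^ (-δ) with hs
  have ha1 : (1 : ℝ) < a := by exact_mod_cast (by omega : 1 < a)
  have hs0 : 0 < s := by positivity
  have hs1 : s < 1 := Real.rpow_lt_one_of_one_lt_of_neg ha1 (by linarith)
  set K : ℝ := s * (a * C) / (1 - s) with hK
  have hK0 : 0 ≤ K := div_nonneg (by positivity) (by linarith)
  have hK1 : s * (K + a * C) = K := by
    rw [hK]
    have : (1 : ℝ) - s ≠ 0 := by linarith
    field_simp
    ring
  -- one step
  have one : ∀ Y : ℕ, N0 ≤ Y / a → |F Y - F (Y / a)| ≤ a * C * (s * ((Y / a : ℕ) : ℝ) ^ (-δ)) := by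
    intro Y hY
    set q := Y / a with hq
    have hq1 : 1 ≤ q := hN0.trans hY
    have hqp : (0 : ℝ) < q := by exact_mod_cast hq1
    have hY2 : Y = a * q + Y % a := (Nat.div_add_mod Y a).symm
    have hr : Y % a < a := Nat.mod_lt _ (by omega)
    have step : ∀ r : ℕ, |F (a * q + r) - F (a * q)| ≤ r * (C * (s * (q : ℝ) ^ (-δ))) := by
      intro r
      induction r with
      | zero => simp
      | succ r ih =>
        have h1 : N0 ≤ a * q + r := by nlinarith
        have h2 := hF1 _ h1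
        have h3 : ((a * q + r : ℕ) : ℝ) ^ (-δ) ≤ s * (q : ℝ) ^ (-δ) := by
          rw [hs, ← Real.mul_rpow (by positivity) (by positivity)]
          refine Real.rpow_le_rpow_of_nonpos (by positivity) ?_ (by linarith)
          push_cast
          have : (0 : ℝ) ≤ r := by positivity
          linarith
        have h4 : |F (a * q + (r + 1)) - F (a * q)| ≤
            |F (a * q + r + 1) - F (a * q + r)| + |F (a * q + r) - F (a * q)| := by
          rw [← add_assoc]
          exact abs_sub_le _ _ _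
        have h5 : |F (a * q + r + 1) - F (a * q + r)| ≤ C * (s * (q : ℝ) ^ (-δ)) :=
          h2.trans (mul_le_mul_of_nonneg_left h3 hC)
        push_cast
        linarith
    have h6 := step (Y % a)
    rw [← hY2, hFa q hq1] at h6
    refine h6.trans ?_
    have h7 : ((Y % a : ℕ) : ℝ) ≤ a := by exact_mod_cast hr.le
    calc ((Y % a : ℕ) : ℝ) * (C * (s * (q : ℝ) ^ (-δ))) ≤ a * (C * (s * (q : ℝ) ^ (-δ))) :=
          mul_le_mul_of_nonneg_right h7 (by positivity)
      _ = _ := by ring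
  refine ⟨K, hK0, fun k => ?_⟩
  induction k with
  | zero =>
    intro X hX
    simp only [pow_zero, Nat.div_one] at hX ⊢
    rw [sub_self, abs_zero]
    positivity
  | succ k ih =>
    intro X hX
    set Y := X / a ^ k with hY
    have hYa : X / a ^ (k + 1) = Y / a := by
      rw [hY, Nat.div_div_eq_div_mul, pow_succ]
    rw [hYa] at hX ⊢
    have hq1 : 1 ≤ Y / a := hN0.trans hX
    have hqp : (0 : ℝ) < ((Y / a : ℕ) : ℝ) := by exact_mod_cast hq1
    have hYge : a * (Y / a) ≤ Y := Nat.mul_div_le Y a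
    have hY0 : N0 ≤ Y := by nlinarith
    have h1 := ih X (by rw [← hY]; exact hY0)
    rw [← hY] at h1
    have h2 := one Y hX
    have h3 : ((Y : ℕ) : ℝ) ^ (-δ) ≤ s * ((Y / a : ℕ) : ℝ) ^ (-δ) := by
      rw [hs, ← Real.mul_rpow (by positivity) (by positivity)]
      refine Real.rpow_le_rpow_of_nonpos (by positivity) ?_ (by linarith)
      exact_mod_cast hYge
    calc |F X - F (Y / a)| ≤ |F X - F Y| + |F Y - F (Y / a)| := abs_sub_le _ _ _
      _ ≤ K * (s * ((Y / a : ℕ) : ℝ) ^ (-δ)) + a * C * (s * ((Y / a : ℕ) : ℝ) ^ (-δ)) :=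
        add_le_add (h1.trans (mul_le_mul_of_nonneg_left h3 hK0)) h2
      _ = s * (K + a * C) * ((Y / a : ℕ) : ℝ) ^ (-δ) := by ring
      _ = _ := by rw [hK1]

/-- **A function invariant under two scales is constant.** -/
theorem const_of_inv (ha : 2 ≤ a) (hb : 2 ≤ b) (h : Indep a b) (hδ : 0 < δ) (hC : 0 ≤ C)
    (hN0 : 1 ≤ N0) (hFa : ∀ n, 1 ≤ n → F (a * n) = F n) (hFb : ∀ n, 1 ≤ n → F (b * n) = F n)
    (hF1 : ∀ n, N0 ≤ n → |F (n + 1) - F n| ≤ C * (n : ℝ) ^ (-δ)) (m n : ℕ) (hm : 1 ≤ m)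
    (hn : 1 ≤ n) : F m = F n := by
  obtain ⟨K, hK0, hK⟩ := floor_bound ha hδ hC hN0 hFa hF1
  have hpa : ∀ k n, 1 ≤ n → F (a ^ k * n) = F n := by
    intro k
    induction k with
    | zero => intro n _; simp
    | succ k ih =>
      intro n hn
      rw [pow_succ, mul_assoc, ih _ (Nat.mul_pos (by omega) hn), hFa n hn]
  have hpb : ∀ k n, 1 ≤ n → F (b ^ k * n) = F n := by
    intro k
    induction k with
    | zero => intro n _; simp
    | succ k ih =>
      intro n hn
      rw [pow_succ, mul_assoc, ih _ (Nat.mul_pos (by omega) hn), hFb n hn]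
  -- it is enough to prove this up to small errors
  by_contra hne
  have hε : 0 < |F m - F n| := abs_pos.2 (sub_ne_zero.2 hne)
  -- choose `N`
  have hlim : Tendsto (fun N : ℕ => (2 * K + C) * (N : ℝ) ^ (-δ)) atTop (𝓝 0) := by
    have h1 : Tendsto (fun N : ℕ => (N : ℝ) ^ (-δ)) atTop (𝓝 0) :=
      (tendsto_rpow_neg_atTop hδ).comp tendsto_natCast_atTop_atTop
    simpa using h1.const_mul (2 * K + C)
  obtain ⟨N, hN, hNge⟩ := ((hlim.eventually (gt_mem_nhds hε)).and
    (eventually_ge_atTop N0)).exists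
  have hN1 : 1 ≤ N := hN0.trans hNge
  have hNp : (0 : ℝ) < N := by exact_mod_cast hN1
  have ha0 : (0 : ℝ) < a := by exact_mod_cast (by omega : 0 < a)
  -- two points near each other
  have near : ∀ X Y k : ℕ, N ≤ X / a ^ k → X ≤ Y → Y ≤ X + a ^ k → |F X - F Y| < |F m - F n| := by
    intro X Y k hX hXY hYX
    have hak : 0 < a ^ k := by positivity
    set x := X / a ^ k with hx
    set y := Y / a ^ k with hy
    have h1 : x ≤ y := Nat.div_le_div_right hXY
    have h2 : y ≤ x + 1 := by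
      calc y ≤ (X + a ^ k) / a ^ k := Nat.div_le_div_right hYX
        _ = x + 1 := by rw [Nat.add_div_right _ hak]
    have h3 := hK k X (hNge.trans hX)
    have h4 := hK k Y (by rw [← hy]; exact (hNge.trans hX).trans h1)
    rw [← hx] at h3
    rw [← hy] at h4
    have hxN : ((x : ℕ) : ℝ) ^ (-δ) ≤ (N : ℝ) ^ (-δ) :=
      Real.rpow_le_rpow_of_nonpos hNp (by exact_mod_cast hX) (by linarith)
    have hyN : ((y : ℕ) : ℝ) ^ (-δ) ≤ (N : ℝ) ^ (-δ) :=
      Real.rpow_le_rpow_of_nonpos hNp (by exact_mod_cast hX.trans h1) (by linarith)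
    have h5 : |F x - F y| ≤ C * (N : ℝ) ^ (-δ) := by
      rcases Nat.lt_or_ge x y with h6 | h6
      · have h7 : y = x + 1 := by omega
        rw [h7, abs_sub_comm]
        exact (hF1 x (hNge.trans hX)).trans (mul_le_mul_of_nonneg_left hxN hC)
      · have h7 : y = x := le_antisymm h6 h1
        rw [h7, sub_self, abs_zero]
        positivity
    have h6 : |F X - F Y| ≤ |F X - F x| + (|F x - F y| + |F Y - F y|) := by
      have := abs_sub_le (F X) (F x) (F Y)
      have h8 := abs_sub_le (F x) (F y) (F Y)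
      rw [abs_sub_comm (F y) (F Y)] at h8
      linarith
    have h7 : |F X - F Y| ≤ (2 * K + C) * (N : ℝ) ^ (-δ) := by
      have h9 := h3.trans (mul_le_mul_of_nonneg_left hxN hK0)
      have h10 := h4.trans (mul_le_mul_of_nonneg_left hyN hK0)
      linarith
    exact lt_of_le_of_lt h7 hN
  -- the approximation
  set η : ℝ := 1 / (2 * (a * (N + 2))) with hη
  have hη0 : 0 < η := by positivity
  have hη1 : η ≤ 1 := by
    rw [hη, div_le_one (by positivity)]
    have : (1 : ℝ) ≤ a := by exact_mod_cast (by omega : 1 ≤ a)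
    nlinarith
  obtain ⟨i, i', j, j', hap⟩ := approx ha hb h hm hn η hη0
  set X0 := a ^ i * (b ^ j * m) with hX0
  set Y0 := a ^ i' * (b ^ j' * n) with hY0
  have hpow : ∀ c k : ℕ, 2 ≤ c → 1 ≤ c ^ k := fun c k hc => Nat.one_le_pow _ _ (by omega)
  have hX1 : 1 ≤ b ^ j * m := Nat.mul_pos (hpow b j hb) hm
  have hY1 : 1 ≤ b ^ j' * n := Nat.mul_pos (hpow b j' hb) hn
  have hX01 : 1 ≤ X0 := Nat.mul_pos (hpow a i ha) hX1
  have hY01 : 1 ≤ Y0 := Nat.mul_pos (hpow a i' ha) hY1
  have hFX : ∀ k, F (a ^ k * X0) = F m := by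
    intro k
    rw [hpa _ _ hX01, hX0, hpa _ _ hX1, hpb _ _ hm]
  have hFY : ∀ k, F (a ^ k * Y0) = F n := by
    intro k
    rw [hpa _ _ hY01, hY0, hpa _ _ hY1, hpb _ _ hn]
  -- the case `X0 ≤ Y0`, general form
  have main : ∀ U V : ℕ, 1 ≤ U → U ≤ V → Real.log (V : ℝ) - Real.log (U : ℝ) < η →
      ∃ k, |F (a ^ k * U) - F (a ^ k * V)| < |F m - F n| := by
    intro U V hU hUV hlog
    have hUp : (0 : ℝ) < U := by exact_mod_cast hU
    have hVp : (0 : ℝ) < V := by exact_mod_cast hU.trans hUV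
    -- `V ≤ (1 + 2 η) U`
    have hV : (V : ℝ) ≤ (1 + 2 * η) * U := by
      have h1 : Real.log (V / U) < η := by
        rw [Real.log_div hVp.ne' hUp.ne']; exact hlog
      have h2 : (V : ℝ) / U < Real.exp η := by
        rw [← Real.log_lt_iff_lt_exp (by positivity)]; exact h1
      have h3 : Real.exp η ≤ 1 + 2 * η := by
        have := Real.abs_exp_sub_one_sub_id_le (x := η) (by rw [abs_of_pos hη0]; exact hη1)
        have h4 := le_abs_self (Real.exp η - 1 - η)
        nlinarith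
      rw [div_lt_iff₀ hUp] at h2
      nlinarith
    set P := a ^ (N + 1) * U with hP
    have hPN : N + 1 ≤ P := by
      have h1 : N + 1 < a ^ (N + 1) := Nat.lt_pow_self (by omega)
      nlinarith
    set q := P / (N + 1) with hq
    have hq1 : 1 ≤ q := (Nat.one_le_div_iff (by omega)).2 hPN
    set k := Nat.log a q with hk
    have hk1 : a ^ k ≤ q := Nat.pow_log_le_self a (by omega)
    have hk2 : q < a ^ (k + 1) := Nat.lt_pow_succ_log_self (by omega) q
    have hk3 : a ^ k * (N + 1) ≤ P := by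
      calc a ^ k * (N + 1) ≤ q * (N + 1) := Nat.mul_le_mul_right _ hk1
        _ ≤ P := Nat.div_mul_le_self P (N + 1)
    have hk4 : P < a ^ (k + 1) * (N + 1) := by
      have h1 : P < (q + 1) * (N + 1) := by
        have := Nat.lt_div_mul_add (a := P) (b := N + 1) (by omega)
        rw [← hq] at this
        linarith
      calc P < (q + 1) * (N + 1) := h1
        _ ≤ a ^ (k + 1) * (N + 1) := Nat.mul_le_mul_right _ hk2
    refine ⟨N + 1, ?_⟩
    rw [← hP]
    refine near P (a ^ (N + 1) * V) k ?_ (Nat.mul_le_mul_left _ hUV) ?_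
    · have h1 : N + 1 ≤ P / a ^ k := by
        rw [Nat.le_div_iff_mul_le (by positivity)]
        linarith
      omega
    · have h1 : ((a ^ (N + 1) * V : ℕ) : ℝ) ≤ ((P + a ^ k : ℕ) : ℝ) := by
        have h2 : ((a ^ (N + 1) * V : ℕ) : ℝ) ≤ (1 + 2 * η) * P := by
          rw [hP]
          push_cast
          have h3 : (a : ℝ) ^ (N + 1) * V ≤ (a : ℝ) ^ (N + 1) * ((1 + 2 * η) * U) :=
            mul_le_mul_of_nonneg_left hV (by positivity)
          linarith
        have h3 : 2 * η * P ≤ (a : ℝ) ^ k := by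
          have h4 : (P : ℝ) ≤ (a : ℝ) ^ k * (a * (N + 2)) := by
            have h5 : (P : ℝ) < (a : ℝ) ^ (k + 1) * (N + 1) := by exact_mod_cast hk4
            have h6 : (0 : ℝ) < (a : ℝ) ^ (k + 1) := by positivity
            calc (P : ℝ) ≤ (a : ℝ) ^ (k + 1) * (N + 1) := h5.le
              _ ≤ (a : ℝ) ^ (k + 1) * (N + 2) := by nlinarith
              _ = _ := by rw [pow_succ]; ring
          calc 2 * η * P ≤ 2 * η * ((a : ℝ) ^ k * (a * (N + 2))) :=
                mul_le_mul_of_nonneg_left h4 (by positivity)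
            _ = (a : ℝ) ^ k := by
                rw [hη]
                field_simp
        push_cast at h2 ⊢
        linarith
      exact_mod_cast h1
  rcases Nat.le_total X0 Y0 with hle | hle
  · obtain ⟨k, hk⟩ := main X0 Y0 hX01 hle (by
      rw [abs_sub_comm] at hap
      exact lt_of_le_of_lt (le_abs_self _) hap)
    rw [hFX, hFY] at hk
    exact lt_irrefl _ hk
  · obtain ⟨k, hk⟩ := main Y0 X0 hY01 hle (lt_of_le_of_lt (le_abs_self _) hap)
    rw [hFX, hFY, abs_sub_comm] at hk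
    exact lt_irrefl _ hk

end inv

/-- **Two scales**, with uniform constants. -/
theorem two_scales_unif {a b : ℕ} (ha : 2 ≤ a) (hb : 2 ≤ b) (hab : Indep a b) {h : ℕ → ℝ}
    {δ M C1 C2 C3 : ℝ} {N0 : ℕ} (hN01 : 1 ≤ N0) (hδ : 0 < δ) (hM : 0 < M) (hC1 : 0 ≤ C1)
    (hC2 : 0 ≤ C2)
    (h1 : ∀ n, N0 ≤ n → |h (n + 1) - h n| ≤ C1 * (n : ℝ) ^ (-δ))
    (h2 : ∀ n, N0 ≤ n → |h (a * n) - h n| ≤ C2 * (n : ℝ) ^ (-M))
    (h3 : ∀ n, N0 ≤ n → |h (b * n) - h n| ≤ C3 * (n : ℝ) ^ (-M)) :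
    ∃ ℓ : ℝ, ∀ n, N0 ≤ n → |h n - ℓ| ≤ C2 / (1 - (a : ℝ) ^ (-M)) * (n : ℝ) ^ (-M) := by
  have ha1 : (1 : ℝ) < a := by exact_mod_cast (by omega : 1 < a)
  set s : ℝ := (a : ℝ) ^ (-M) with hs
  have hs0 : 0 < s := by positivity
  have hs1 : s < 1 := Real.rpow_lt_one_of_one_lt_of_neg ha1 (by linarith)
  -- the sequences `h (a ^ k n)` converge
  have hstep : ∀ n, N0 ≤ n → ∀ k, dist (h (a ^ k * n)) (h (a ^ (k + 1) * n)) ≤
      C2 * (n : ℝ) ^ (-M) * s ^ k := by
    intro n hn k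
    have hn1 : 1 ≤ n := hN01.trans hn
    have h4 : N0 ≤ a ^ k * n := by
      have : 1 ≤ a ^ k := Nat.one_le_pow _ _ (by omega)
      nlinarith
    have h5 := h2 _ h4
    rw [dist_comm, Real.dist_eq, show a ^ (k + 1) * n = a * (a ^ k * n) by rw [pow_succ]; ring]
    refine h5.trans (le_of_eq ?_)
    have h6 : ((a ^ k * n : ℕ) : ℝ) ^ (-M) = s ^ k * (n : ℝ) ^ (-M) := by
      push_cast
      rw [Real.mul_rpow (by positivity) (by positivity), hs, ← Real.rpow_natCast,
        ← Real.rpow_natCast, ← Real.rpow_mul (by positivity), ← Real.rpow_mul (by positivity),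
        mul_comm (k : ℝ)]
    rw [h6]
    ring
  have hex : ∀ n, 1 ≤ n → ∃ ℓ, Tendsto (fun k => h (a ^ k * n)) atTop (𝓝 ℓ) := by
    intro n hn
    have h4 : N0 ≤ a ^ N0 * n := by
      have : N0 < a ^ N0 := Nat.lt_pow_self (by omega)
      nlinarith
    have h5 : CauchySeq (fun k => h (a ^ k * (a ^ N0 * n))) :=
      cauchySeq_of_le_geometric s _ hs1 (hstep _ h4)
    obtain ⟨ℓ, hℓ⟩ := cauchySeq_tendsto_of_complete h5
    refine ⟨ℓ, ?_⟩
    rw [← tendsto_add_atTop_iff_nat N0]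
    refine hℓ.congr fun k => ?_
    rw [pow_add]
    congr 1
    ring
  choose! F hF using hex
  have hFh : ∀ n, N0 ≤ n → |h n - F n| ≤ C2 * (n : ℝ) ^ (-M) / (1 - s) := by
    intro n hn
    have h4 := dist_le_of_le_geometric_of_tendsto₀ s _ hs1 (hstep n hn) (hF n (hN01.trans hn))
    rw [pow_zero, one_mul, Real.dist_eq] at h4
    exact h4
  have hFa : ∀ n, 1 ≤ n → F (a * n) = F n := by
    intro n hn
    have h4 := hF (a * n) (Nat.mul_pos (by omega) hn)
    have h5 := (tendsto_add_atTop_iff_nat 1).2 (hF n hn)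
    refine tendsto_nhds_unique h4 (h5.congr fun k => ?_)
    rw [pow_succ, mul_assoc]
  have hFb : ∀ n, 1 ≤ n → F (b * n) = F n := by
    intro n hn
    have h4 := hF (b * n) (Nat.mul_pos (by omega) hn)
    have h5 := hF n hn
    have h6 : Tendsto (fun k => h (a ^ k * (b * n)) - h (a ^ k * n)) atTop (𝓝 0) := by
      have h7 : Tendsto (fun k : ℕ => ((a ^ k * n : ℕ) : ℝ)) atTop atTop := by
        refine tendsto_natCast_atTop_atTop.comp ?_
        refine tendsto_atTop_mono (fun k => ?_) (tendsto_id (α := ℕ))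
        have : k < a ^ k := Nat.lt_pow_self (by omega)
        simp only [id]
        nlinarith
      have h8 : Tendsto (fun k : ℕ => |C3| * ((a ^ k * n : ℕ) : ℝ) ^ (-M)) atTop (𝓝 0) := by
        simpa using ((tendsto_rpow_neg_atTop hM).comp h7).const_mul |C3|
      refine squeeze_zero_norm' ?_ h8
      have h9 := (tendsto_natCast_atTop_iff (R := ℝ)).1 h7
      filter_upwards [h9.eventually_ge_atTop N0] with k hk
      have h10 := h3 _ hk
      rw [Real.norm_eq_abs, show a ^ k * (b * n) = b * (a ^ k * n) by ring]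
      exact h10.trans (mul_le_mul_of_nonneg_right (le_abs_self _) (by positivity))
    have h7 := h4.sub h5
    have h8 := tendsto_nhds_unique h7 h6
    linarith
  set δ' := min δ M with hδ'
  have hδ'0 : 0 < δ' := lt_min hδ hM
  have hsp : 0 < 1 - s := by linarith
  set C' := C1 + 2 * (C2 / (1 - s)) with hC'
  have hC'0 : 0 ≤ C' := by positivity
  have hF1 : ∀ n, N0 ≤ n → |F (n + 1) - F n| ≤ C' * (n : ℝ) ^ (-δ') := by
    intro n hn
    have hn1 : 1 ≤ n := hN01.trans hn
    have hnr : (1 : ℝ) ≤ n := by exact_mod_cast hn1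
    have e1 : (n : ℝ) ^ (-δ) ≤ (n : ℝ) ^ (-δ') :=
      Real.rpow_le_rpow_of_exponent_le hnr (neg_le_neg (min_le_left _ _))
    have e2 : (n : ℝ) ^ (-M) ≤ (n : ℝ) ^ (-δ') :=
      Real.rpow_le_rpow_of_exponent_le hnr (neg_le_neg (min_le_right _ _))
    have e3 : ((n + 1 : ℕ) : ℝ) ^ (-M) ≤ (n : ℝ) ^ (-M) :=
      Real.rpow_le_rpow_of_nonpos (by linarith) (by push_cast; linarith) (by linarith)
    have a1 := h1 n hn
    have a2 := hFh n hn
    have a3 := hFh (n + 1) (by omega)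
    have a4 : |F (n + 1) - F n| ≤ |h (n + 1) - F (n + 1)| + |h (n + 1) - h n| + |h n - F n| := by
      have b1 := abs_sub_le (F (n + 1)) (h (n + 1)) (F n)
      have b2 := abs_sub_le (h (n + 1)) (h n) (F n)
      rw [abs_sub_comm (F (n + 1)) (h (n + 1))] at b1
      linarith
    have a5 : |h (n + 1) - F (n + 1)| ≤ C2 / (1 - s) * (n : ℝ) ^ (-δ') := by
      refine a3.trans ?_
      rw [div_mul_eq_mul_div]
      refine div_le_div_of_nonneg_right ?_ hsp.le
      exact mul_le_mul_of_nonneg_left (e3.trans e2) hC2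
    have a6 : |h n - F n| ≤ C2 / (1 - s) * (n : ℝ) ^ (-δ') := by
      refine a2.trans ?_
      rw [div_mul_eq_mul_div]
      refine div_le_div_of_nonneg_right ?_ hsp.le
      exact mul_le_mul_of_nonneg_left e2 hC2
    have a7 : |h (n + 1) - h n| ≤ C1 * (n : ℝ) ^ (-δ') :=
      a1.trans (mul_le_mul_of_nonneg_left e1 hC1)
    rw [hC']
    linarith
  refine ⟨F 1, fun n hn => ?_⟩
  rw [← const_of_inv ha hb hab hδ'0 hC'0 hN01 hFa hFb hF1 n 1 (hN01.trans hn) le_rfl,
    div_mul_eq_mul_div]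
  exact hFh n hn

/-- **Two scales.** A sequence whose values at `a n` and `b n` are close to the value at `n`
converges, with the same rate. -/
theorem two_scales {a b : ℕ} (ha : 2 ≤ a) (hb : 2 ≤ b) (hab : Indep a b) {h : ℕ → ℝ} {δ M : ℝ}
    (hδ : 0 < δ) (hM : 0 < M)
    (h1 : ∃ C : ℝ, ∀ᶠ n : ℕ in atTop, |h (n + 1) - h n| ≤ C * (n : ℝ) ^ (-δ))
    (h2 : ∃ C : ℝ, ∀ᶠ n : ℕ in atTop, |h (a * n) - h n| ≤ C * (n : ℝ) ^ (-M))
    (h3 : ∃ C : ℝ, ∀ᶠ n : ℕ in atTop, |h (b * n) - h n| ≤ C * (n : ℝ) ^ (-M)) :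
    ∃ ℓ C : ℝ, ∀ᶠ n : ℕ in atTop, |h n - ℓ| ≤ C * (n : ℝ) ^ (-M) := by
  obtain ⟨C1, h1⟩ := h1
  obtain ⟨C2, h2⟩ := h2
  obtain ⟨C3, h3⟩ := h3
  obtain ⟨N, hN⟩ := eventually_atTop.1 (h1.and (h2.and (h3.and (eventually_ge_atTop 1))))
  have hNN : ∀ n, max N 1 ≤ n → N ≤ n := fun n hn => (le_max_left _ _).trans hn
  obtain ⟨ℓ, hℓ⟩ := two_scales_unif ha hb hab (h := h) (C1 := |C1|) (C2 := |C2|) (C3 := C3)
    (le_max_right N 1) hδ hM (abs_nonneg _) (abs_nonneg _)
    (fun n hn => ((hN n (hNN n hn)).1).trans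
      (mul_le_mul_of_nonneg_right (le_abs_self _) (by positivity)))
    (fun n hn => ((hN n (hNN n hn)).2.1).trans
      (mul_le_mul_of_nonneg_right (le_abs_self _) (by positivity)))
    (fun n hn => (hN n (hNN n hn)).2.2.1)
  exact ⟨ℓ, _, (eventually_ge_atTop (max N 1)).mono hℓ⟩

end Pool.Agent.U17.TS
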